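import Pool.Agent.UW94.SieveL

set_option autoImplicit false

namespace Pool.Agent.UW94

open Finset Pool.Agent.E456 Pool.Agent.Gold42

theorem cntL_mem {N V h h' n : ℕ} : n ∈ QL N V h h' ↔ (N < n ∧ n ≤ N + V) ∧
    (n - h).Prime ∧ (n + h).Prime ∧ (n - h').Prime ∧ (n + h').Prime := by
  unfold QL; rw [mem_filter, mem_Ioc]

theorem cntL_near (N V h Y : ℕ) :
    ((Ioc N (N + V)).filter (fun n => 0 < n - h ∧ n - h ≤ Y)).card ≤ Y := by
  have : ((Ioc N (N + V)).filter (fun n => 0 < n - h ∧ n - h ≤ Y)).card ≤ (Ioc 0 Y).card := by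
    apply card_le_card_of_injOn (fun n => n - h)
    · intro n hn
      rw [mem_coe, mem_filter] at hn
      exact mem_coe.2 (mem_Ioc.2 hn.2)
    · intro i hi j hj hij
      rw [mem_coe, mem_filter] at hi hj
      simp only at hij
      omega
  simpa using this

/-- the basic bound -/
theorem cntL_le : ∃ K : ℝ, 0 < K ∧ ∀ J N V h h' : ℕ, 2 * Y8 J ^ 12 ≤ V → V ≤ N →
    ((QL N V h h').card : ℝ) ≤
      2 * Y8 J + K * V * Real.exp (-∑ p ∈ pr 8 J, xbar (x4 h h') 1 p) := by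
  classical
  obtain ⟨K, hK, hs⟩ := sieve_loc
  refine ⟨K, hK, ?_⟩
  intro J N V h h' hYV hVN
  have hmain := hs J N V h h' hYV hVN
  have hterm : ∀ n, 0 ≤ ∏ l ∈ pr 8 J, (1 - x4 h h' l n) := fun n =>
    prod_nonneg fun l _ => by linarith [(x4_bounds h h' l n).2]
  set G := (QL N V h h').filter (fun n => Y8 J < n - h ∧ Y8 J < n - h') with hG
  have h1 : ((QL N V h h').card : ℝ) ≤
      2 * Y8 J + ∑ n ∈ Ioc N (N + V), ∏ l ∈ pr 8 J, (1 - x4 h h' l n) := by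
    have hsplit : QL N V h h' ⊆ (Ioc N (N + V)).filter (fun n => 0 < n - h ∧ n - h ≤ Y8 J) ∪
        ((Ioc N (N + V)).filter (fun n => 0 < n - h' ∧ n - h' ≤ Y8 J) ∪ G) := by
      intro n hn
      have hn' := cntL_mem.1 hn
      have p1 := hn'.2.1.pos
      have p2 := hn'.2.2.2.1.pos
      rw [mem_union, mem_union, hG, mem_filter, mem_filter, mem_filter, mem_Ioc]
      by_cases c1 : Y8 J < n - h
      · by_cases c2 : Y8 J < n - h'
        · exact Or.inr (Or.inr ⟨hn, c1, c2⟩)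
        · exact Or.inr (Or.inl ⟨hn'.1, p2, by omega⟩)
      · exact Or.inl ⟨hn'.1, p1, by omega⟩
    have h2 : (QL N V h h').card ≤ 2 * Y8 J + G.card := by
      have e1 := card_le_card hsplit
      have e2 := card_union_le ((Ioc N (N + V)).filter (fun n => 0 < n - h ∧ n - h ≤ Y8 J))
        ((Ioc N (N + V)).filter (fun n => 0 < n - h' ∧ n - h' ≤ Y8 J) ∪ G)
      have e4 := card_union_le ((Ioc N (N + V)).filter (fun n => 0 < n - h' ∧ n - h' ≤ Y8 J)) G
      have e5 := cntL_near N V h (Y8 J)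
      have e6 := cntL_near N V h' (Y8 J)
      omega
    have h3 : (G.card : ℝ) ≤ ∑ n ∈ Ioc N (N + V), ∏ l ∈ pr 8 J, (1 - x4 h h' l n) := by
      calc (G.card : ℝ) = ∑ n ∈ G, (1 : ℝ) := by simp
        _ = ∑ n ∈ G, ∏ l ∈ pr 8 J, (1 - x4 h h' l n) := by
            refine sum_congr rfl fun n hn => ?_
            rw [hG, mem_filter, cntL_mem] at hn
            rw [prod_one J h h' n hn.2.1 hn.2.2 hn.1.2]
        _ ≤ _ := by
            apply sum_le_sum_of_subset_of_nonneg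
            · intro n hn
              rw [hG, mem_filter, cntL_mem] at hn
              rw [mem_Ioc]
              exact hn.1.1
            · intro n _ _; exact hterm n
    have h4 : ((QL N V h h').card : ℝ) ≤ 2 * Y8 J + G.card := by exact_mod_cast h2
    linarith
  linarith

/-- the choice of the sieving limit -/
theorem cntL_scale : ∃ N₀ : ℕ, ∀ N V : ℕ, N₀ ≤ N → V ≤ N → N ≤ V ^ 2 → ∃ J : ℕ,
    2 * Y8 J ^ 12 ≤ V ∧ Real.log N / 144 ≤ Real.log (Y8 J) ∧ 1 ≤ Real.log N ∧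
    (Y8 J : ℝ) ≤ 16 * (V / Real.log N ^ 4) := by
  obtain ⟨A, hA⟩ := scale_facts
  refine ⟨(A + 4) ^ 2, fun N V hN hVN hNV => ?_⟩
  have hVA : A + 4 ≤ V := by
    by_contra hcon
    have h1 : V < A + 4 := by omega
    have h2 : V ^ 2 < (A + 4) ^ 2 := Nat.pow_lt_pow_left h1 (by norm_num)
    omega
  obtain ⟨J, hJ1, hJ2, hJ3, hJ4, hJ5⟩ := hA V (by omega)
  have hY8 := Y8_ge J
  have hV0 : (0 : ℝ) < V := by exact_mod_cast (by omega : 0 < V)
  have hN0 : (0 : ℝ) < N := by exact_mod_cast (by omega : 0 < N)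
  have hlogVN : Real.log V ≤ Real.log N := Real.log_le_log hV0 (by exact_mod_cast hVN)
  have hlogNV : Real.log N ≤ 2 * Real.log V := by
    calc Real.log N ≤ Real.log ((V : ℝ) ^ 2) := by
          apply Real.log_le_log hN0
          exact_mod_cast hNV
      _ = 2 * Real.log V := by rw [Real.log_pow]; norm_num
  refine ⟨J, ?_, by linarith, by linarith, ?_⟩
  · have h1 : 2 * Nat.sqrt V ≤ V := by
      have h2 : 2 ≤ Nat.sqrt V := by rw [Nat.le_sqrt]; omega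
      calc 2 * Nat.sqrt V ≤ Nat.sqrt V * Nat.sqrt V := Nat.mul_le_mul_right _ h2
        _ ≤ V := Nat.sqrt_le V
    omega
  · have h1 : (Y8 J : ℝ) ≤ Nat.sqrt V := by
      have h2 : Y8 J ≤ Y8 J ^ 12 := Nat.le_self_pow (by norm_num) _
      exact_mod_cast h2.trans hJ1
    refine (h1.trans hJ5).trans ?_
    have h2 : Real.log N ^ 4 ≤ 16 * Real.log V ^ 4 := by
      calc Real.log N ^ 4 ≤ (2 * Real.log V) ^ 4 :=
            pow_le_pow_left₀ (by linarith) hlogNV 4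
        _ = 16 * Real.log V ^ 4 := by ring
    have hV4 : 0 < Real.log V ^ 4 := by positivity
    have hN4 : 0 < Real.log N ^ 4 := pow_pos (by linarith) 4
    rw [div_le_iff₀ hV4, mul_assoc, div_mul_eq_mul_div, mul_div_assoc', le_div_iff₀ hN4]
    nlinarith

/-- From `sieve_loc`, a copy of `Q4_le` and `cnt4` (Gold42/PairCount.lean): `J` from `exists_J8` for
`Nat.sqrt V`, `2 * Y8 J ^ 12 ≤ V`, `log V ≤ 72 log (Y8 J)`, `log N ≤ 2 log V`. -/
theorem cnt4L : ∃ C : ℝ, 0 < C ∧ ∃ N₀ : ℕ, ∀ N V : ℕ, N₀ ≤ N → V ≤ N → N ≤ V ^ 2 →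
    ∀ h' h : ℕ, 0 < h' → h' < h →
    ((QL N V h h').card : ℝ) ≤ C * (V / Real.log N ^ 4) *
      Real.exp (4 * (hh h + hh h' + (hh (h - h') + hh (h + h')))) := by
  obtain ⟨K, hK, hQ⟩ := cntL_le
  obtain ⟨N₀, hN₀⟩ := cntL_scale
  obtain ⟨C2, hC2, hm2⟩ := mertens2
  refine ⟨32 + K * (144 ^ 4 * Real.exp (4 * S1 8 + 4 * C2)), by positivity, N₀, ?_⟩
  intro N V hN hVN hNV h' h hh0 hlt
  obtain ⟨J, hJ1, hlog, hlog1, hsq⟩ := hN₀ N V hN hVN hNV
  have hY8 := Y8_ge J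
  have hb := hQ J N V h h' hJ1 hVN
  have hs := sum_xbar4 J h h' hh0 hlt
  have hS := (abs_le.mp (hm2 (Y8 J) (by omega))).1
  have hlY : 0 < Real.log (Y8 J) := Real.log_pos (by exact_mod_cast (by omega : 1 < Y8 J))
  set T := hh h + hh h' + (hh (h - h') + hh (h + h')) with hT
  have hT0 : 0 ≤ T := by
    have e1 := hh_nonneg h
    have e2 := hh_nonneg h'
    have e3 := hh_nonneg (h - h')
    have e4 := hh_nonneg (h + h')
    linarith
  have hexp : Real.exp (-∑ p ∈ pr 8 J, xbar (x4 h h') 1 p)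
      ≤ 144 ^ 4 * Real.exp (4 * S1 8 + 4 * C2) / Real.log N ^ 4 * Real.exp (4 * T) := by
    have e1 : Real.exp (-∑ p ∈ pr 8 J, xbar (x4 h h') 1 p)
        ≤ Real.exp ((4 * S1 8 + 4 * C2) - 4 * Real.log (Real.log (Y8 J)) + 4 * T) :=
      Real.exp_le_exp.mpr (by linarith)
    refine e1.trans ?_
    rw [Real.exp_add ((4 * S1 8 + 4 * C2) - 4 * Real.log (Real.log (Y8 J))) (4 * T), Real.exp_sub]
    have e2 : Real.exp (4 * Real.log (Real.log (Y8 J))) = Real.log (Y8 J) ^ 4 := by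
      rw [show (4 : ℝ) * Real.log (Real.log (Y8 J)) = ((4 : ℕ) : ℝ) * Real.log (Real.log (Y8 J)) by norm_num,
        Real.exp_nat_mul, Real.exp_log hlY]
    rw [e2]
    have e3 : Real.log N ^ 4 / 144 ^ 4 ≤ Real.log (Y8 J) ^ 4 := by
      calc Real.log N ^ 4 / 144 ^ 4 = (Real.log N / 144) ^ 4 := by ring
        _ ≤ Real.log (Y8 J) ^ 4 := by gcongr
    have e4 : Real.exp (4 * S1 8 + 4 * C2) / Real.log (Y8 J) ^ 4
        ≤ 144 ^ 4 * Real.exp (4 * S1 8 + 4 * C2) / Real.log N ^ 4 := by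
      rw [div_le_div_iff₀ (by positivity) (by positivity)]
      have e5 : Real.log N ^ 4 ≤ 144 ^ 4 * Real.log (Y8 J) ^ 4 := by
        rw [div_le_iff₀ (by norm_num)] at e3
        linarith
      have e6 := Real.exp_pos (4 * S1 8 + 4 * C2)
      nlinarith
    gcongr
  have hV0 : (0 : ℝ) ≤ V := by positivity
  have hE : 1 ≤ Real.exp (4 * T) := Real.one_le_exp (by positivity)
  have hNL : (0 : ℝ) ≤ 16 * (V / Real.log N ^ 4) := by positivity
  calc ((QL N V h h').card : ℝ) ≤ _ := hb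
    _ ≤ 2 * (16 * (V / Real.log N ^ 4) * Real.exp (4 * T)) + K * V *
        (144 ^ 4 * Real.exp (4 * S1 8 + 4 * C2) / Real.log N ^ 4 * Real.exp (4 * T)) := by
        have e7 : (Y8 J : ℝ) ≤ 16 * (V / Real.log N ^ 4) * Real.exp (4 * T) :=
          hsq.trans (le_mul_of_one_le_right hNL hE)
        gcongr
    _ = _ := by ring

/-- the same with `cnt2` -/
theorem cnt2L : ∃ C : ℝ, 0 < C ∧ ∃ N₀ : ℕ, ∀ N V : ℕ, N₀ ≤ N → V ≤ N → N ≤ V ^ 2 →
    ∀ h : ℕ, 0 < h →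
    ((QL N V h h).card : ℝ) ≤ C * (V / Real.log N ^ 2) * Real.exp (2 * hh h) := by
  obtain ⟨K, hK, hQ⟩ := cntL_le
  obtain ⟨N₀, hN₀⟩ := cntL_scale
  obtain ⟨C2, hC2, hm2⟩ := mertens2
  refine ⟨32 + K * (144 ^ 2 * Real.exp (2 * S1 8 + 2 * C2)), by positivity, N₀, ?_⟩
  intro N V hN hVN hNV h hh0
  obtain ⟨J, hJ1, hlog, hlog1, hsq⟩ := hN₀ N V hN hVN hNV
  have hY8 := Y8_ge J
  have hb := hQ J N V h h hJ1 hVN
  have hs := sum_xbar2 J h hh0
  have hS := (abs_le.mp (hm2 (Y8 J) (by omega))).1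
  have hlY : 0 < Real.log (Y8 J) := Real.log_pos (by exact_mod_cast (by omega : 1 < Y8 J))
  set T := hh h with hT
  have hT0 : 0 ≤ T := hh_nonneg h
  have hexp : Real.exp (-∑ p ∈ pr 8 J, xbar (x4 h h) 1 p)
      ≤ 144 ^ 2 * Real.exp (2 * S1 8 + 2 * C2) / Real.log N ^ 2 * Real.exp (2 * T) := by
    have e1 : Real.exp (-∑ p ∈ pr 8 J, xbar (x4 h h) 1 p)
        ≤ Real.exp ((2 * S1 8 + 2 * C2) - 2 * Real.log (Real.log (Y8 J)) + 2 * T) :=
      Real.exp_le_exp.mpr (by linarith)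
    refine e1.trans ?_
    rw [Real.exp_add ((2 * S1 8 + 2 * C2) - 2 * Real.log (Real.log (Y8 J))) (2 * T), Real.exp_sub]
    have e2 : Real.exp (2 * Real.log (Real.log (Y8 J))) = Real.log (Y8 J) ^ 2 := by
      rw [show (2 : ℝ) * Real.log (Real.log (Y8 J)) = ((2 : ℕ) : ℝ) * Real.log (Real.log (Y8 J)) by norm_num,
        Real.exp_nat_mul, Real.exp_log hlY]
    rw [e2]
    have e3 : Real.log N ^ 2 / 144 ^ 2 ≤ Real.log (Y8 J) ^ 2 := by
      calc Real.log N ^ 2 / 144 ^ 2 = (Real.log N / 144) ^ 2 := by ring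
        _ ≤ Real.log (Y8 J) ^ 2 := by gcongr
    have e4 : Real.exp (2 * S1 8 + 2 * C2) / Real.log (Y8 J) ^ 2
        ≤ 144 ^ 2 * Real.exp (2 * S1 8 + 2 * C2) / Real.log N ^ 2 := by
      rw [div_le_div_iff₀ (by positivity) (by positivity)]
      have e5 : Real.log N ^ 2 ≤ 144 ^ 2 * Real.log (Y8 J) ^ 2 := by
        rw [div_le_iff₀ (by norm_num)] at e3
        linarith
      have e6 := Real.exp_pos (2 * S1 8 + 2 * C2)
      nlinarith
    gcongr
  have hV0 : (0 : ℝ) ≤ V := by positivity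
  have hE : 1 ≤ Real.exp (2 * T) := Real.one_le_exp (by positivity)
  have hNL : (0 : ℝ) ≤ 16 * (V / Real.log N ^ 2) := by positivity
  have hsq2 : (Y8 J : ℝ) ≤ 16 * (V / Real.log N ^ 2) := by
    refine hsq.trans ?_
    apply mul_le_mul_of_nonneg_left _ (by norm_num)
    apply div_le_div_of_nonneg_left hV0 (by positivity)
    exact pow_le_pow_right₀ hlog1 (by norm_num)
  calc ((QL N V h h).card : ℝ) ≤ _ := hb
    _ ≤ 2 * (16 * (V / Real.log N ^ 2) * Real.exp (2 * T)) + K * V *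
        (144 ^ 2 * Real.exp (2 * S1 8 + 2 * C2) / Real.log N ^ 2 * Real.exp (2 * T)) := by
        have e7 : (Y8 J : ℝ) ≤ 16 * (V / Real.log N ^ 2) * Real.exp (2 * T) :=
          hsq2.trans (le_mul_of_one_le_right hNL hE)
        gcongr
    _ = _ := by ring

end Pool.Agent.UW94
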