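import Mathlib
import Pool.Agent.Gold42.FirstLower

/-! Symmetric prime pairs around the `n` of a short interval: definitions. -/

set_option autoImplicit false

namespace Pool.Agent.UW94

open Finset Pool.Agent.E456 Pool.Agent.Gold42

/-- the `n` in `(N, N + V]` with `n ± h` and `n ± h'` prime -/
def QL (N V h h' : ℕ) : Finset ℕ := (Ioc N (N + V)).filter (fun n =>
  (n - h).Prime ∧ (n + h).Prime ∧ (n - h').Prime ∧ (n + h').Prime)

/-- the primes in `(N, N + V]` -/
def PL (N V : ℕ) : Finset ℕ := (Ioc N (N + V)).filter Nat.Prime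

end Pool.Agent.UW94
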