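import Pool.Agent.UW94.CntL

set_option autoImplicit false

namespace Pool.Agent.UW94

open Finset Pool.Agent.E456 Pool.Agent.Gold42

/-- `cnt2L` summed over a window, Cauchy-Schwarz and `sum_exp_hh 4` on `(0, T₂]`. -/
theorem mid_upper : ∃ C : ℝ, 0 < C ∧ ∃ N₀ : ℕ, ∀ N V : ℕ, N₀ ≤ N → V ≤ N → N ≤ V ^ 2 →
    ∀ T₁ T₂ : ℕ, ∑ h ∈ Ioc T₁ T₂, ((QL N V h h).card : ℝ) ≤
      C * (V / Real.log N ^ 2) * √(((T₂ - T₁ : ℕ) : ℝ) * T₂) := by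
  obtain ⟨C, hC, N₀, hc⟩ := cnt2L
  set E : ℝ := Real.exp (2 * (4 * Real.exp 4)) with hE
  have hE0 : 0 < E := Real.exp_pos _
  refine ⟨C * √E, by positivity, N₀, fun N V hN hV hV2 T₁ T₂ => ?_⟩
  have hp : 0 ≤ C * ((V : ℝ) / Real.log N ^ 2) := by positivity
  have h1 : ∑ h ∈ Ioc T₁ T₂, ((QL N V h h).card : ℝ) ≤
      C * (V / Real.log N ^ 2) * ∑ h ∈ Ioc T₁ T₂, Real.exp (2 * hh h) := by
    rw [mul_sum]
    refine sum_le_sum fun h hh1 => ?_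
    rw [mem_Ioc] at hh1
    exact hc N V hN hV hV2 h (by omega)
  have h2 : (∑ h ∈ Ioc T₁ T₂, Real.exp (2 * hh h)) ^ 2 ≤
      (((T₂ - T₁ : ℕ) : ℝ) * T₂) * E := by
    have h3 : (∑ h ∈ Ioc T₁ T₂, Real.exp (2 * hh h)) ^ 2 ≤
        ((Ioc T₁ T₂).card : ℝ) * ∑ h ∈ Ioc T₁ T₂, Real.exp (2 * hh h) ^ 2 :=
      sq_sum_le_card_mul_sum_sq
    rw [Nat.card_Ioc] at h3
    have h4 : ∑ h ∈ Ioc T₁ T₂, Real.exp (2 * hh h) ^ 2 ≤ T₂ * E := by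
      calc ∑ h ∈ Ioc T₁ T₂, Real.exp (2 * hh h) ^ 2
          = ∑ h ∈ Ioc T₁ T₂, Real.exp (4 * hh h) := by
            refine sum_congr rfl fun h _ => ?_
            rw [← Real.exp_nat_mul]
            congr 1
            push_cast
            ring
        _ ≤ ∑ h ∈ Ioc 0 T₂, Real.exp (4 * hh h) := by
            refine sum_le_sum_of_subset_of_nonneg ?_ fun k _ _ => (Real.exp_pos _).le
            exact Ioc_subset_Ioc_left (Nat.zero_le _)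
        _ ≤ T₂ * E := sum_exp_hh 4 (by norm_num) T₂
    calc (∑ h ∈ Ioc T₁ T₂, Real.exp (2 * hh h)) ^ 2
        ≤ ((T₂ - T₁ : ℕ) : ℝ) * ∑ h ∈ Ioc T₁ T₂, Real.exp (2 * hh h) ^ 2 := h3
      _ ≤ ((T₂ - T₁ : ℕ) : ℝ) * (T₂ * E) := mul_le_mul_of_nonneg_left h4 (Nat.cast_nonneg _)
      _ = _ := by ring
  have h5 : ∑ h ∈ Ioc T₁ T₂, Real.exp (2 * hh h) ≤ √(((T₂ - T₁ : ℕ) : ℝ) * T₂) * √E := by
    rw [← Real.sqrt_mul (by positivity)]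
    exact Real.le_sqrt_of_sq_le h2
  calc ∑ h ∈ Ioc T₁ T₂, ((QL N V h h).card : ℝ)
      ≤ C * (V / Real.log N ^ 2) * ∑ h ∈ Ioc T₁ T₂, Real.exp (2 * hh h) := h1
    _ ≤ C * (V / Real.log N ^ 2) * (√(((T₂ - T₁ : ℕ) : ℝ) * T₂) * √E) :=
        mul_le_mul_of_nonneg_left h5 hp
    _ = _ := by ring

end Pool.Agent.UW94
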