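import Pool.Agent.UW94.PntL
import Pool.Agent.UW94.MidL

set_option autoImplicit false

namespace Pool.Agent.UW94

open Finset Pool.Agent.E456 Pool.Agent.Gold42

/-- the combinatorial part: the gaps between the primes of `(N, N + V]` -/
private theorem gap_comb (N V : ℕ) (hN : 2 ≤ N) (x y : ℝ) (hx : 0 ≤ x) (hxy : x ≤ y) (T : Finset ℕ)
    (hT : ∀ n ∈ Ioc N (N + V), (∃ h : ℕ, 0 < h ∧
      (h : ℝ) ≤ x ∧ (n - h).Prime ∧ (n + h).Prime ∧ N < n - h) → n ∈ T) :
    2 * y * (((PL N V).card : ℝ) - 1 - (T.card : ℝ)) -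
      2 * (y - x) * (∑ h ∈ Ioc ⌊x⌋₊ ⌊y⌋₊, ((QL N V h h).card : ℝ)) ≤ V := by
  classical
  have hinf : (Set.ofPred Nat.Prime).Infinite := Nat.infinite_setOfPred_prime
  have pmono : StrictMono (Nat.nth Nat.Prime) := Nat.nth_strictMono hinf
  have pprime : ∀ k, (Nat.nth Nat.Prime k).Prime := fun k => Nat.nth_mem_of_infinite hinf k
  obtain ⟨a, ha⟩ : ∃ a, a = Nat.count Nat.Prime (N + 1) := ⟨_, rfl⟩
  obtain ⟨b, hb⟩ : ∃ b, b = Nat.count Nat.Prime (N + V + 1) := ⟨_, rfl⟩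
  have hcard : (PL N V).card ≤ b - a := by
    rw [← Nat.card_Ico]
    apply Finset.card_le_card_of_injOn (fun q => Nat.count Nat.Prime q)
    · intro q hq
      simp only [PL, Finset.coe_filter, Finset.mem_Ioc, Set.mem_ofPred_eq] at hq
      simp only [Finset.coe_Ico, Set.mem_Ico]
      constructor
      · rw [ha]; exact Nat.count_monotone _ (by omega)
      · rw [hb]
        calc Nat.count Nat.Prime q < Nat.count Nat.Prime (q + 1) := by
              rw [Nat.count_succ, if_pos hq.2]; omega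
          _ ≤ _ := Nat.count_monotone _ (by omega)
    · intro q hq r hr h
      simp only [PL, Finset.coe_filter, Finset.mem_Ioc, Set.mem_ofPred_eq] at hq hr
      have h1 := congrArg (Nat.nth Nat.Prime) h
      simp only [Nat.nth_count hq.2, Nat.nth_count hr.2] at h1
      exact h1
  have hSg : (0 : ℝ) ≤ ∑ h ∈ Ioc ⌊x⌋₊ ⌊y⌋₊, ((QL N V h h).card : ℝ) :=
    Finset.sum_nonneg fun _ _ => Nat.cast_nonneg _
  have hy : 0 ≤ y := hx.trans hxy
  rcases Nat.lt_or_ge a b with hab | hab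
  swap
  · have h0 : (PL N V).card = 0 := by omega
    rw [h0]
    have h1 : (0 : ℝ) ≤ (T.card : ℝ) := Nat.cast_nonneg _
    have h2 : (0 : ℝ) ≤ (V : ℝ) := Nat.cast_nonneg _
    have h3 : 0 ≤ 2 * (y - x) * (∑ h ∈ Ioc ⌊x⌋₊ ⌊y⌋₊, ((QL N V h h).card : ℝ)) :=
      mul_nonneg (by linarith) hSg
    push_cast
    nlinarith [mul_nonneg hy h1]
  obtain ⟨m, hm⟩ : ∃ m, b = a + m + 1 := ⟨b - a - 1, by omega⟩
  obtain ⟨q, hq⟩ : ∃ q : ℕ → ℕ, q = fun i => Nat.nth Nat.Prime (a + i) := ⟨_, rfl⟩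
  have qmono : StrictMono q := by
    rw [hq]; intro i j hij; exact pmono (by omega)
  have qprime : ∀ i, (q i).Prime := fun i => by rw [hq]; exact pprime _
  have qlow : ∀ i, N < q i := by
    intro i
    have h1 := Nat.le_nth_count hinf (N + 1)
    rw [← ha] at h1
    have h2 : Nat.nth Nat.Prime a ≤ Nat.nth Nat.Prime (a + i) := pmono.monotone (by omega)
    rw [hq]
    show N < Nat.nth Nat.Prime (a + i)
    omega
  have qup : ∀ i, i ≤ m → q i ≤ N + V := by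
    intro i hi
    have h1 : Nat.nth Nat.Prime (a + i) < N + V + 1 := by
      apply Nat.nth_lt_of_lt_count
      rw [← hb]; omega
    rw [hq]
    show Nat.nth Nat.Prime (a + i) ≤ N + V
    omega
  have qodd : ∀ i, q i % 2 = 1 := by
    intro i
    rcases (qprime i).eq_two_or_odd with h | h
    · have := qlow i; omega
    · exact h
  have qsucc : ∀ i, q i + 2 * ((q (i + 1) - q i) / 2) = q (i + 1) := by
    intro i
    have h1 := qodd i
    have h2 := qodd (i + 1)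
    have h3 := qmono (Nat.lt_succ_self i)
    simp only [Nat.succ_eq_add_one] at h3
    omega
  obtain ⟨g, hg⟩ : ∃ g : ℕ → ℕ, g = fun i => (q (i + 1) - q i) / 2 := ⟨_, rfl⟩
  have hg2 : ∀ i, q i + 2 * g i = q (i + 1) := by rw [hg]; exact qsucc
  have gpos : ∀ i, 0 < g i := by
    intro i
    have h1 := hg2 i
    have h3 := qmono (Nat.lt_succ_self i)
    simp only [Nat.succ_eq_add_one] at h3
    omega
  obtain ⟨A, hA⟩ : ∃ A : Finset ℕ, A = (range m).filter (fun i => (g i : ℝ) ≤ x) := ⟨_, rfl⟩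
  obtain ⟨B, hB⟩ : ∃ B : Finset ℕ, B = (range m).filter (fun i => x < (g i : ℝ) ∧ (g i : ℝ) ≤ y) :=
    ⟨_, rfl⟩
  have hAT : A.card ≤ T.card := by
    apply Finset.card_le_card_of_injOn (fun i => q i + g i)
    · intro i hi
      rw [hA] at hi
      simp only [Finset.coe_filter, Finset.mem_range, Set.mem_ofPred_eq] at hi
      have h1 := qlow i
      have h2 := qup (i + 1) (by omega)
      have h3 := hg2 i
      have h4 := gpos i
      show q i + g i ∈ T
      refine hT _ (Finset.mem_Ioc.2 ⟨by omega, by omega⟩) ⟨g i, h4, hi.2, ?_, ?_, by omega⟩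
      · rw [Nat.add_sub_cancel]; exact qprime i
      · rw [show q i + g i + g i = q (i + 1) by omega]; exact qprime _
    · intro i _ j _ h
      have key : ∀ i j, i < j → q i + g i < q j + g j := by
        intro i j hij
        have h1 : q (i + 1) ≤ q j := qmono.monotone hij
        have h2 := hg2 i
        have h3 := gpos i
        omega
      rcases lt_trichotomy i j with h1 | h1 | h1
      · exact absurd h (key i j h1).ne
      · exact h1
      · exact absurd h (key j i h1).ne'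
  have hBS : (B.card : ℝ) ≤ ∑ h ∈ Ioc ⌊x⌋₊ ⌊y⌋₊, ((QL N V h h).card : ℝ) := by
    rw [← Nat.cast_sum, Nat.cast_le, ← Finset.card_sigma]
    apply Finset.card_le_card_of_injOn (fun i => (⟨g i, q i + g i⟩ : Σ _ : ℕ, ℕ))
    · intro i hi
      rw [hB] at hi
      simp only [Finset.coe_filter, Finset.mem_range, Set.mem_ofPred_eq] at hi
      have h1 := qlow i
      have h2 := qup (i + 1) (by omega)
      have h3 := hg2 i
      have h4 := gpos i
      simp only [Finset.coe_sigma, Set.mem_sigma_iff, Finset.mem_coe, Finset.mem_Ioc, QL,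
        Finset.mem_filter]
      have e1 : (q i + g i - g i).Prime := by rw [Nat.add_sub_cancel]; exact qprime i
      have e2 : (q i + g i + g i).Prime := by
        rw [show q i + g i + g i = q (i + 1) by omega]; exact qprime _
      exact ⟨⟨(Nat.floor_lt hx).2 hi.2.1, Nat.le_floor hi.2.2⟩, ⟨by omega, by omega⟩, e1, e2, e1, e2⟩
    · intro i _ j _ h
      simp only [Sigma.mk.injEq, heq_eq_eq] at h
      have : q i = q j := by omega
      exact qmono.injective this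
  have hsum : ∑ i ∈ range m, ((q (i + 1) : ℝ) - q i) ≤ V := by
    rw [Finset.sum_range_sub (fun i => (q i : ℝ))]
    have h1 := qup m le_rfl
    have h2 := qlow 0
    have h3 : (q m : ℝ) ≤ N + V := by exact_mod_cast h1
    have h4 : (N : ℝ) ≤ q 0 := by exact_mod_cast h2.le
    linarith
  have hlow : ∑ i ∈ range m, (2 * y - (if i ∈ A then 2 * y else 0) -
      (if i ∈ B then 2 * (y - x) else 0)) ≤ ∑ i ∈ range m, ((q (i + 1) : ℝ) - q i) := by
    apply Finset.sum_le_sum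
    intro i hi
    have h1 : (q (i + 1) : ℝ) = q i + 2 * g i := by exact_mod_cast (hg2 i).symm
    have h2 : (0 : ℝ) ≤ g i := Nat.cast_nonneg _
    have mA : i ∈ A ↔ (g i : ℝ) ≤ x := by rw [hA, Finset.mem_filter]; exact ⟨fun h => h.2, fun h => ⟨hi, h⟩⟩
    have mB : i ∈ B ↔ x < (g i : ℝ) ∧ (g i : ℝ) ≤ y := by
      rw [hB, Finset.mem_filter]; exact ⟨fun h => h.2, fun h => ⟨hi, h⟩⟩
    by_cases c1 : (g i : ℝ) ≤ x
    · rw [if_pos (mA.2 c1), if_neg (fun h => absurd (mB.1 h).1 (not_lt.2 c1))]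
      linarith
    · rw [if_neg (fun h => c1 (mA.1 h))]
      by_cases c2 : (g i : ℝ) ≤ y
      · rw [if_pos (mB.2 ⟨not_le.1 c1, c2⟩)]
        push Not at c1
        linarith
      · rw [if_neg (fun h => c2 (mB.1 h).2)]
        push Not at c2
        linarith
  have fA : (range m).filter (fun i => i ∈ A) = A := by
    ext i
    rw [Finset.mem_filter, hA, Finset.mem_filter]
    tauto
  have fB : (range m).filter (fun i => i ∈ B) = B := by
    ext i
    rw [Finset.mem_filter, hB, Finset.mem_filter]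
    tauto
  have eA : ∑ i ∈ range m, (if i ∈ A then 2 * y else 0) = 2 * y * A.card := by
    rw [← Finset.sum_filter, Finset.sum_const, nsmul_eq_mul, mul_comm, fA]
  have eB : ∑ i ∈ range m, (if i ∈ B then 2 * (y - x) else 0) = 2 * (y - x) * B.card := by
    rw [← Finset.sum_filter, Finset.sum_const, nsmul_eq_mul, mul_comm, fB]
  rw [Finset.sum_sub_distrib, Finset.sum_sub_distrib, eA, eB, Finset.sum_const, nsmul_eq_mul,
    Finset.card_range] at hlow
  have hmc : ((PL N V).card : ℝ) - 1 ≤ m := by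
    have h1 : (PL N V).card ≤ m + 1 := by omega
    have h2 : ((PL N V).card : ℝ) ≤ (m : ℝ) + 1 := by exact_mod_cast h1
    linarith
  have hAT' : (A.card : ℝ) ≤ T.card := by exact_mod_cast hAT
  have i1 := mul_le_mul_of_nonneg_left hmc (show (0 : ℝ) ≤ 2 * y by linarith)
  have i2 := mul_le_mul_of_nonneg_left hAT' (show (0 : ℝ) ≤ 2 * y by linarith)
  have i3 := mul_le_mul_of_nonneg_left hBS (show (0 : ℝ) ≤ 2 * (y - x) by linarith)
  nlinarith [i1, i2, i3, hlow, hsum]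

open Classical in
/-- Erdős's gap argument. `L = log N`, `nx p` = the next prime after `p`; the intervals
`(p, nx p]`, `p ∈ PL N V` with `nx p ≤ N + V`, are disjoint, so the sum of the gaps is at most `V`
and there are at least `card - 1` of them. Gaps in `((1 - 2 δ) L, (1 + 2 δ) L]`: at most
`C₀ (V / L ^ 2) √((2 δ L + 1) L) ≤ C₀ √(3 δ) V / L` by `mid_upper`
(`n = (p + nx p) / 2`, `h = (nx p - p) / 2`). With `A` the number of gaps `≤ (1 - 2 δ) L`:
`V ≥ (card - 1 - A) (1 + 2 δ) L - 4 δ L C₀ √(3 δ) V / L`; for `δ` small (`4 √3 C₀ √δ ≤ 1`) and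
`primes_loc` with `δ / 16` this gives `A ≥ δ / 4 * V / L`. The midpoints are different. -/
theorem small_gaps : ∃ δ κ : ℝ, 0 < δ ∧ δ < 1 / 2 ∧ 0 < κ ∧ ∀ ε : ℝ, 0 < ε → ∃ N₀ : ℕ,
    ∀ N V : ℕ, N₀ ≤ N → ε * N ≤ V → V ≤ N →
    κ * (V / Real.log N) ≤ (((Ioc N (N + V)).filter (fun n => ∃ h : ℕ, 0 < h ∧
      (h : ℝ) ≤ (1 / 2 - δ) * Real.log N ∧ (n - h).Prime ∧ (n + h).Prime ∧ N < n - h)).card : ℝ) := by
  obtain ⟨C, hC, N₁, hmid⟩ := mid_upper
  obtain ⟨δ, hδ, hδ4, hδC⟩ : ∃ δ : ℝ, 0 < δ ∧ δ < 1 / 4 ∧ 4 * C * √(3 * δ) ≤ 1 := by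
    refine ⟨min (1 / 8) (1 / (48 * C ^ 2)), lt_min (by norm_num) (by positivity),
      (min_le_left _ _).trans_lt (by norm_num), ?_⟩
    have h1 : √(3 * min (1 / 8) (1 / (48 * C ^ 2))) ≤ √((1 / (4 * C)) ^ 2) := by
      apply Real.sqrt_le_sqrt
      have := min_le_right (1 / 8 : ℝ) (1 / (48 * C ^ 2))
      calc 3 * min (1 / 8 : ℝ) (1 / (48 * C ^ 2)) ≤ 3 * (1 / (48 * C ^ 2)) := by linarith
        _ = (1 / (4 * C)) ^ 2 := by field_simp; norm_num
    rw [Real.sqrt_sq (by positivity)] at h1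
    calc 4 * C * √(3 * min (1 / 8) (1 / (48 * C ^ 2))) ≤ 4 * C * (1 / (4 * C)) := by gcongr
      _ = 1 := by field_simp
  refine ⟨δ, δ / 4, hδ, by linarith, by positivity, fun ε hε => ?_⟩
  obtain ⟨N₂, hpr⟩ := primes_loc ε (δ / 16) hε (by positivity)
  have ev1 : ∀ᶠ N : ℕ in Filter.atTop, 1 / δ ≤ Real.log N :=
    (Real.tendsto_log_atTop.comp tendsto_natCast_atTop_atTop).eventually_ge_atTop _
  have ev2 : ∀ᶠ N : ℕ in Filter.atTop, 1 / ε ^ 2 ≤ (N : ℝ) :=
    tendsto_natCast_atTop_atTop.eventually_ge_atTop _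
  have ev3 : ∀ᶠ N : ℕ in Filter.atTop, Real.log N ≤ (3 * δ * ε / 16) * N := by
    have h1 := (Real.isLittleO_log_id_atTop.def (show (0 : ℝ) < 3 * δ * ε / 16 by positivity))
    have h2 := tendsto_natCast_atTop_atTop (R := ℝ) |>.eventually h1
    filter_upwards [h2, Filter.eventually_ge_atTop 1] with N hN hN1
    have h3 : 0 ≤ Real.log N := Real.log_nonneg (by exact_mod_cast hN1)
    simpa [abs_of_nonneg h3] using hN
  obtain ⟨N₀, hN₀⟩ := Filter.eventually_atTop.1 (ev1.and (ev2.and (ev3.and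
    ((Filter.eventually_ge_atTop N₁).and ((Filter.eventually_ge_atTop N₂).and
      (Filter.eventually_ge_atTop 2))))))
  refine ⟨N₀, fun N V hN hV hVN => ?_⟩
  obtain ⟨h1, h2, h3, h4, h5, h6⟩ := hN₀ N hN
  have hNpos : (0 : ℝ) < N := by exact_mod_cast (by omega : 0 < N)
  have hL : 0 < Real.log N := lt_of_lt_of_le (by positivity) h1
  obtain ⟨L, hLe⟩ : ∃ L, L = Real.log N := ⟨_, rfl⟩
  rw [← hLe] at hL h1 h3 ⊢
  have hVpos : (0 : ℝ) < V := lt_of_lt_of_le (by positivity) hV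
  have hNV2 : N ≤ V ^ 2 := by
    have : (N : ℝ) ≤ (V : ℝ) ^ 2 := by
      calc (N : ℝ) = N * 1 := by ring
        _ ≤ N * (ε ^ 2 * N) := by
            apply mul_le_mul_of_nonneg_left _ hNpos.le
            rw [div_le_iff₀ (by positivity)] at h2
            linarith
        _ = (ε * N) ^ 2 := by ring
        _ ≤ (V : ℝ) ^ 2 := by gcongr
    exact_mod_cast this
  have hδL : 1 ≤ δ * L := by
    rw [div_le_iff₀ hδ] at h1
    linarith
  have hcomb := gap_comb N V h6 ((1 / 2 - δ) * L) ((1 / 2 + δ) * L)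
    (mul_nonneg (by linarith) hL.le) (by nlinarith)
    ((Ioc N (N + V)).filter (fun n => ∃ h : ℕ, 0 < h ∧
      (h : ℝ) ≤ (1 / 2 - δ) * L ∧ (n - h).Prime ∧ (n + h).Prime ∧ N < n - h))
    (fun n h1 h2 => Finset.mem_filter.2 ⟨h1, h2⟩)
  have hm := hmid N V h4 hVN hNV2 ⌊(1 / 2 - δ) * L⌋₊ ⌊(1 / 2 + δ) * L⌋₊
  have hp := hpr N V h5 hV hVN
  rw [← hLe] at hm hp
  -- the square root
  have hT2 : ((⌊(1 / 2 + δ) * L⌋₊ : ℕ) : ℝ) ≤ L := by
    have := Nat.floor_le (show 0 ≤ (1 / 2 + δ) * L by positivity)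
    nlinarith
  have hT12 : ((⌊(1 / 2 + δ) * L⌋₊ - ⌊(1 / 2 - δ) * L⌋₊ : ℕ) : ℝ) ≤ 3 * δ * L := by
    have e1 := Nat.floor_le (show 0 ≤ (1 / 2 + δ) * L by positivity)
    have e2 := Nat.lt_floor_add_one ((1 / 2 - δ) * L)
    rcases le_total ⌊(1 / 2 + δ) * L⌋₊ ⌊(1 / 2 - δ) * L⌋₊ with h | h
    · rw [Nat.sub_eq_zero_of_le h]
      push_cast
      positivity
    · rw [Nat.cast_sub h]
      nlinarith
  have hsq : √(((⌊(1 / 2 + δ) * L⌋₊ - ⌊(1 / 2 - δ) * L⌋₊ : ℕ) : ℝ) * (⌊(1 / 2 + δ) * L⌋₊ : ℕ)) ≤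
      √(3 * δ) * L := by
    calc √(((⌊(1 / 2 + δ) * L⌋₊ - ⌊(1 / 2 - δ) * L⌋₊ : ℕ) : ℝ) * (⌊(1 / 2 + δ) * L⌋₊ : ℕ))
        ≤ √(3 * δ * L * L) := by
          apply Real.sqrt_le_sqrt
          exact mul_le_mul hT12 hT2 (Nat.cast_nonneg _) (by positivity)
      _ = √(3 * δ) * L := by
          rw [show 3 * δ * L * L = 3 * δ * L ^ 2 by ring, Real.sqrt_mul (by positivity),
            Real.sqrt_sq hL.le]
  obtain ⟨S, hS⟩ : ∃ S : ℝ, S = ∑ h ∈ Ioc ⌊(1 / 2 - δ) * L⌋₊ ⌊(1 / 2 + δ) * L⌋₊,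
    ((QL N V h h).card : ℝ) := ⟨_, rfl⟩
  rw [← hS] at hcomb hm
  obtain ⟨T, hT⟩ : ∃ T : ℝ, T = (((Ioc N (N + V)).filter (fun n => ∃ h : ℕ, 0 < h ∧
      (h : ℝ) ≤ (1 / 2 - δ) * L ∧ (n - h).Prime ∧ (n + h).Prime ∧ N < n - h)).card : ℝ) := ⟨_, rfl⟩
  rw [← hT] at hcomb ⊢
  have hS2 : 4 * δ * L * S ≤ δ * V := by
    have e1 : S ≤ C * (V / L ^ 2) * (√(3 * δ) * L) := hm.trans (by gcongr)
    calc 4 * δ * L * S ≤ 4 * δ * L * (C * (V / L ^ 2) * (√(3 * δ) * L)) := by gcongr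
      _ = (4 * C * √(3 * δ)) * (δ * V) := by field_simp
      _ ≤ 1 * (δ * V) := by gcongr
      _ = δ * V := one_mul _
  obtain ⟨X, hX⟩ : ∃ X : ℝ, X = (V : ℝ) / L := ⟨_, rfl⟩
  have hVX : (V : ℝ) = X * L := by rw [hX]; field_simp
  rw [← hX] at hp ⊢
  have hXbig : 16 ≤ 3 * δ * X := by
    rw [hX]
    rw [← mul_div_assoc, le_div_iff₀ hL]
    calc 16 * L ≤ 16 * ((3 * δ * ε / 16) * N) := by gcongr
      _ = 3 * δ * (ε * N) := by ring
      _ ≤ 3 * δ * V := by gcongr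
  -- (1 + 2 δ) (m - 1 - T) ≤ (1 + δ) X
  have hmain : (1 + 2 * δ) * (((PL N V).card : ℝ) - 1 - T) ≤ (1 + δ) * X := by
    have e1 : L * ((1 + 2 * δ) * (((PL N V).card : ℝ) - 1 - T)) ≤ L * ((1 + δ) * X) := by
      have e2 : 2 * ((1 / 2 + δ) * L) * (((PL N V).card : ℝ) - 1 - T) -
        2 * ((1 / 2 + δ) * L - (1 / 2 - δ) * L) * S ≤ V := hcomb
      have e3 : 2 * ((1 / 2 + δ) * L - (1 / 2 - δ) * L) * S = 4 * δ * L * S := by ring
      rw [e3] at e2
      calc L * ((1 + 2 * δ) * (((PL N V).card : ℝ) - 1 - T))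
          = 2 * ((1 / 2 + δ) * L) * (((PL N V).card : ℝ) - 1 - T) := by ring
        _ ≤ V + δ * V := by linarith
        _ = L * ((1 + δ) * X) := by rw [hVX]; ring
    exact le_of_mul_le_mul_left e1 hL
  have hle : ((PL N V).card : ℝ) - 1 - T ≤ (1 - δ / 2) * X := by
    by_contra hcon
    push Not at hcon
    have hXpos : 0 < X := by
      rw [hX]; positivity
    have e1 : (1 + 2 * δ) * ((1 - δ / 2) * X) < (1 + 2 * δ) * (((PL N V).card : ℝ) - 1 - T) := by
      gcongr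
    have e2 : (1 + δ) * X ≤ (1 + 2 * δ) * ((1 - δ / 2) * X) := by
      have : (1 + δ) ≤ (1 + 2 * δ) * (1 - δ / 2) := by nlinarith
      calc (1 + δ) * X ≤ ((1 + 2 * δ) * (1 - δ / 2)) * X := by gcongr
        _ = _ := by ring
    linarith
  nlinarith [hle, hp, hXbig]

end Pool.Agent.UW94
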