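import Pool.Agent.UW94.PntL

set_option autoImplicit false

namespace Pool.Agent.UW94

open Finset Pool.Agent.E456 Pool.Agent.Gold42

private lemma lowL_mem {N V p : ℕ} : p ∈ PL N V ↔ (N < p ∧ p ≤ N + V) ∧ p.Prime := by
  unfold PL; rw [mem_filter, mem_Ioc]

/-- pairs of primes in the same block of length `2 H` -/
private def PEL (N V H : ℕ) : Finset (ℕ × ℕ) :=
  (PL N V ×ˢ PL N V).filter (fun q => (q.1 - N) / (2 * H) = (q.2 - N) / (2 * H))

private lemma sq_leL (N V H : ℕ) :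
    ((PL N V).card : ℝ) ^ 2 ≤ ((V / (2 * H) + 1 : ℕ) : ℝ) * ((PEL N V H).card : ℝ) := by
  classical
  have hmaps : ∀ p ∈ PL N V, (p - N) / (2 * H) ∈ range (V / (2 * H) + 1) := by
    intro p hp
    rw [lowL_mem] at hp
    rw [mem_range]
    exact Nat.lt_succ_of_le (Nat.div_le_div_right (by omega))
  have h1 : (PL N V).card = ∑ k ∈ range (V / (2 * H) + 1),
      ((PL N V).filter (fun p => (p - N) / (2 * H) = k)).card :=
    card_eq_sum_card_fiberwise (fun p hp => mem_coe.2 (hmaps p hp))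
  have h2 : (PEL N V H).card = ∑ k ∈ range (V / (2 * H) + 1),
      ((PL N V).filter (fun p => (p - N) / (2 * H) = k)).card ^ 2 := by
    have h3 : (PEL N V H).card = ∑ k ∈ range (V / (2 * H) + 1),
        ((PEL N V H).filter (fun q => (q.1 - N) / (2 * H) = k)).card :=
      card_eq_sum_card_fiberwise (fun q hq => by
        rw [mem_coe, PEL, mem_filter, mem_product] at hq
        exact mem_coe.2 (hmaps _ hq.1.1))
    rw [h3]
    refine sum_congr rfl fun k _ => ?_
    rw [pow_two, ← card_product]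
    congr 1
    ext q
    simp only [PEL, mem_filter, mem_product]
    constructor
    · rintro ⟨⟨⟨ha, hb⟩, hab⟩, hk⟩
      exact ⟨⟨ha, hk⟩, ⟨hb, by rw [← hab]; exact hk⟩⟩
    · rintro ⟨⟨ha, hak⟩, ⟨hb, hbk⟩⟩
      exact ⟨⟨⟨ha, hb⟩, by rw [hak, hbk]⟩, hak⟩
  have h4 := sq_sum_le_card_mul_sum_sq (s := range (V / (2 * H) + 1))
    (f := fun k => (((PL N V).filter (fun p => (p - N) / (2 * H) = k)).card : ℝ))
  rw [card_range] at h4
  have h5 : ((PL N V).card : ℝ) = ∑ k ∈ range (V / (2 * H) + 1),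
      (((PL N V).filter (fun p => (p - N) / (2 * H) = k)).card : ℝ) := by
    rw [← Nat.cast_sum, ← h1]
  have h6 : ((PEL N V H).card : ℝ) = ∑ k ∈ range (V / (2 * H) + 1),
      (((PL N V).filter (fun p => (p - N) / (2 * H) = k)).card : ℝ) ^ 2 := by
    rw [h2]; push_cast; rfl
  rw [h5, h6]
  exact h4

private lemma rH_sum_eqL (N V H : ℕ) : ∑ n ∈ Ioc N (N + V), rH H n =
    (((Ioc N (N + V) ×ˢ Ioc 0 H).filter
      (fun q => (q.1 - q.2).Prime ∧ (q.1 + q.2).Prime)).card : ℝ) := by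
  rw [card_filter, sum_product]
  push_cast
  rfl

private lemma pairs_leL (N V H : ℕ) (hN : 2 ≤ N) (hH : 0 < H) :
    ((PEL N V H).card : ℝ) ≤ (PL N V).card + 2 * ∑ n ∈ Ioc N (N + V), rH H n := by
  classical
  set Wf := (Ioc N (N + V) ×ˢ Ioc 0 H).filter
    (fun q => (q.1 - q.2).Prime ∧ (q.1 + q.2).Prime) with hWf
  have hlt : ((PEL N V H).filter (fun q => q.1 < q.2)).card ≤ Wf.card := by
    apply card_le_card_of_injOn (fun q => ((q.1 + q.2) / 2, (q.2 - q.1) / 2))
    · intro q hq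
      rw [mem_coe, mem_filter, PEL, mem_filter, mem_product, lowL_mem, lowL_mem] at hq
      obtain ⟨⟨⟨⟨h1, h2⟩, h3, h4⟩, h5⟩, h6⟩ := hq
      have o1 := h2.odd_of_ne_two (by omega)
      have o2 := h4.odd_of_ne_two (by omega)
      rw [Nat.odd_iff] at o1 o2
      have hdist : q.2 < q.1 + 2 * H := by
        have e1 := Nat.div_add_mod (q.1 - N) (2 * H)
        have e2 := Nat.div_add_mod (q.2 - N) (2 * H)
        have e3 := Nat.mod_lt (q.2 - N) (show 0 < 2 * H by omega)
        rw [← h5] at e2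
        omega
      show ((q.1 + q.2) / 2, (q.2 - q.1) / 2) ∈ (Wf : Set (ℕ × ℕ))
      rw [mem_coe, hWf, mem_filter, mem_product, mem_Ioc, mem_Ioc]
      refine ⟨⟨⟨by show N < (q.1 + q.2) / 2; omega, by show (q.1 + q.2) / 2 ≤ N + V; omega⟩,
        by show 0 < (q.2 - q.1) / 2; omega, by show (q.2 - q.1) / 2 ≤ H; omega⟩, ?_, ?_⟩
      · show ((q.1 + q.2) / 2 - (q.2 - q.1) / 2).Prime
        have : (q.1 + q.2) / 2 - (q.2 - q.1) / 2 = q.1 := by omega
        rw [this]; exact h2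
      · show ((q.1 + q.2) / 2 + (q.2 - q.1) / 2).Prime
        have : (q.1 + q.2) / 2 + (q.2 - q.1) / 2 = q.2 := by omega
        rw [this]; exact h4
    · intro q hq q' hq' heq
      rw [mem_coe, mem_filter, PEL, mem_filter, mem_product, lowL_mem, lowL_mem] at hq hq'
      obtain ⟨⟨⟨⟨h1, h2⟩, h3, h4⟩, h5⟩, h6⟩ := hq
      obtain ⟨⟨⟨⟨h1', h2'⟩, h3', h4'⟩, h5'⟩, h6'⟩ := hq'
      have o1 := h2.odd_of_ne_two (by omega)
      have o2 := h4.odd_of_ne_two (by omega)
      have o1' := h2'.odd_of_ne_two (by omega)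
      have o2' := h4'.odd_of_ne_two (by omega)
      rw [Nat.odd_iff] at o1 o2 o1' o2'
      rw [Prod.mk.injEq] at heq
      ext <;> omega
  have hgt : ((PEL N V H).filter (fun q => q.2 < q.1)).card
      ≤ ((PEL N V H).filter (fun q => q.1 < q.2)).card := by
    apply card_le_card_of_injOn Prod.swap
    · intro q hq
      rw [mem_coe, mem_filter, PEL, mem_filter, mem_product] at hq
      rw [mem_coe, mem_filter, PEL, mem_filter, mem_product]
      exact ⟨⟨⟨hq.1.1.2, hq.1.1.1⟩, hq.1.2.symm⟩, hq.2⟩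
    · exact Prod.swap_injective.injOn
  have hdiag : ((PEL N V H).filter (fun q => q.1 = q.2)).card ≤ (PL N V).card := by
    apply card_le_card_of_injOn Prod.fst
    · intro q hq
      rw [mem_coe, mem_filter, PEL, mem_filter, mem_product] at hq
      exact mem_coe.2 hq.1.1.1
    · intro q hq q' hq' heq
      rw [mem_coe, mem_filter] at hq hq'
      have e1 := hq.2
      have e2 := hq'.2
      ext
      · exact heq
      · rw [← e1, ← e2]; exact heq
  have hcov : PEL N V H ⊆ (PEL N V H).filter (fun q => q.1 = q.2) ∪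
      ((PEL N V H).filter (fun q => q.1 < q.2) ∪ (PEL N V H).filter (fun q => q.2 < q.1)) := by
    intro q hq
    rw [mem_union, mem_union, mem_filter, mem_filter, mem_filter]
    rcases lt_trichotomy q.1 q.2 with h | h | h
    · exact Or.inr (Or.inl ⟨hq, h⟩)
    · exact Or.inl ⟨hq, h⟩
    · exact Or.inr (Or.inr ⟨hq, h⟩)
  have hc := card_le_card hcov
  have u1 := card_union_le ((PEL N V H).filter (fun q => q.1 = q.2))
    ((PEL N V H).filter (fun q => q.1 < q.2) ∪ (PEL N V H).filter (fun q => q.2 < q.1))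
  have u2 := card_union_le ((PEL N V H).filter (fun q => q.1 < q.2))
    ((PEL N V H).filter (fun q => q.2 < q.1))
  have hfin : (PEL N V H).card ≤ (PL N V).card + 2 * Wf.card := by omega
  rw [rH_sum_eqL]
  exact_mod_cast hfin

/-- copy of `first_lower` (Gold42/FirstLower.lean): the primes of `(N, N + V]` in the blocks
`(q - N) / (2 H)`, Cauchy-Schwarz; `card ≥ V / (2 log N)` by `primes_loc ε (1 / 2)`. -/
theorem first_lowerL (ε : ℝ) (hε : 0 < ε) : ∃ N₀ : ℕ, ∀ N V : ℕ, N₀ ≤ N → ε * N ≤ V → V ≤ N →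
    ∀ H : ℕ, 4 * Real.log N ≤ H → 2 * H ≤ V →
    V * H / (32 * Real.log N ^ 2) ≤ ∑ n ∈ Ioc N (N + V), rH H n := by
  obtain ⟨N₀, hN₀⟩ := primes_loc ε (1 / 2) hε (by norm_num)
  refine ⟨max N₀ 3, fun N V hN hεV hVN H hH hHN => ?_⟩
  have hN1 : N₀ ≤ N := (le_max_left _ _).trans hN
  have hN3 : 3 ≤ N := (le_max_right _ _).trans hN
  have hNR : (3 : ℝ) ≤ N := by exact_mod_cast hN3
  have hV0 : (0 : ℝ) < V := lt_of_lt_of_le (by positivity) hεV
  have hL : 0 < Real.log N := Real.log_pos (by linarith)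
  set L := Real.log N with hLd
  have hH0 : (0 : ℝ) < H := by linarith
  have hH0' : 0 < H := by exact_mod_cast hH0
  have hs' := hN₀ N V hN1 hεV hVN
  rw [← hLd] at hs'
  have h1 := sq_leL N V H
  have h2 := pairs_leL N V H (by omega) hH0'
  set s : ℝ := ((PL N V).card : ℝ) with hsd
  have hs : (V : ℝ) / (2 * L) ≤ s := by
    refine le_trans (le_of_eq ?_) hs'
    field_simp
    ring
  set W := ∑ n ∈ Ioc N (N + V), rH H n with hW
  have hK : ((V / (2 * H) + 1 : ℕ) : ℝ) ≤ V / H := by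
    have e1 : ((V / (2 * H) : ℕ) : ℝ) ≤ V / (2 * H : ℕ) := Nat.cast_div_le
    have e2 : (2 * H : ℝ) ≤ V := by exact_mod_cast hHN
    push_cast at e1 ⊢
    have e3 : (V : ℝ) / H = V / (2 * H) + V / (2 * H) := by field_simp; ring
    have e4 : 1 ≤ (V : ℝ) / (2 * H) := by
      rw [le_div_iff₀ (by positivity)]; linarith
    rw [e3]; linarith
  have hP0 : (0 : ℝ) ≤ (PEL N V H).card := by positivity
  have h3 : s ^ 2 ≤ V / H * (s + 2 * W) := by
    calc s ^ 2 ≤ ((V / (2 * H) + 1 : ℕ) : ℝ) * ((PEL N V H).card : ℝ) := h1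
      _ ≤ V / H * ((PEL N V H).card : ℝ) := by gcongr
      _ ≤ V / H * (s + 2 * W) := by gcongr
  have hs0 : 0 < s := lt_of_lt_of_le (by positivity) hs
  -- s^2 H / V ≤ s + 2 W
  have h4 : s ^ 2 * H / V ≤ s + 2 * W := by
    rw [div_le_iff₀ hV0]
    have := mul_le_mul_of_nonneg_right h3 hH0.le
    calc s ^ 2 * H ≤ V / H * (s + 2 * W) * H := this
      _ = (s + 2 * W) * V := by field_simp
  have h5 : 2 * s ≤ s ^ 2 * H / V := by
    rw [le_div_iff₀ hV0]
    have e1 : 2 * V ≤ s * H := by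
      calc (2 : ℝ) * V = (V / (2 * L)) * (4 * L) := by field_simp; ring
        _ ≤ s * H := by gcongr
    nlinarith
  have h6 : s ^ 2 * H / V ≤ 4 * W := by linarith
  have h7 : V * H / (32 * L ^ 2) ≤ s ^ 2 * H / V / 4 := by
    have e1 : (V / (2 * L)) ^ 2 ≤ s ^ 2 := by gcongr
    have e2 : V * H / (32 * L ^ 2) = (V / (2 * L)) ^ 2 * H / V / 8 := by field_simp; ring
    have e3 : (V / (2 * L)) ^ 2 * H / V / 8 ≤ s ^ 2 * H / V / 8 := by gcongr
    have e4 : 0 ≤ s ^ 2 * H / V := by positivity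
    rw [e2]; linarith
  linarith

end Pool.Agent.UW94
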