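import Pool.Agent.UW94.MomL
import Pool.Agent.UW94.LowL
import Pool.Agent.UW94.GapL

set_option autoImplicit false

namespace Pool.Agent.UW94

open Finset Real Filter Pool.Agent.E456 Pool.Agent.Gold42

/-- the number of primes `p` in `(√(2n), n)` with `n - p ≤ H` and `2 n - p` prime -/
noncomputable def R (H : ℝ) (n : ℕ) : ℕ :=
  Nat.card {p : ℕ // p.Prime ∧ √(2 * (n : ℝ)) < p ∧ p < n ∧ (n : ℝ) - p ≤ H ∧ (2 * n - p).Prime}

/-- the set of these primes -/
noncomputable def RS (H : ℝ) (n : ℕ) : Finset ℕ := by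
  classical exact (range n).filter (fun p => p.Prime ∧ √(2 * (n : ℝ)) < p ∧
    (n : ℝ) - p ≤ H ∧ (2 * n - p).Prime)

lemma mem_RS {H : ℝ} {n p : ℕ} : p ∈ RS H n ↔
    p.Prime ∧ √(2 * (n : ℝ)) < p ∧ p < n ∧ (n : ℝ) - p ≤ H ∧ (2 * n - p).Prime := by
  classical
  unfold RS; rw [mem_filter, mem_range]
  tauto

lemma R_eq (H : ℝ) (n : ℕ) : R H n = (RS H n).card := by
  unfold R
  exact Nat.subtype_card (RS H n) fun p => mem_RS

/-- upper bound by `rH` -/
lemma R_le (H' n : ℕ) (H : ℝ) (hH : H < H' + 1) : (R H n : ℝ) ≤ rH H' n := by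
  classical
  rw [R_eq]
  have h1 : rH H' n = (((Ioc 0 H').filter (fun h => (n - h).Prime ∧ (n + h).Prime)).card : ℝ) := by
    unfold rH ind
    rw [card_filter]
    push_cast
    rfl
  rw [h1]
  have h2 : (RS H n).card ≤ ((Ioc 0 H').filter (fun h => (n - h).Prime ∧ (n + h).Prime)).card := by
    apply card_le_card_of_injOn (fun p => n - p)
    · intro p hp
      rw [mem_coe, mem_RS] at hp
      obtain ⟨hp, -, hpn, hpH, hq⟩ := hp
      have e1 : ((n - p : ℕ) : ℝ) = (n : ℝ) - p := by rw [Nat.cast_sub hpn.le]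
      have e2 : ((n - p : ℕ) : ℝ) < H' + 1 := by rw [e1]; linarith
      have e3 : n - p < H' + 1 := by exact_mod_cast e2
      show n - p ∈ (((Ioc 0 H').filter (fun h => (n - h).Prime ∧ (n + h).Prime) : Finset ℕ) : Set ℕ)
      rw [mem_coe, mem_filter, mem_Ioc]
      refine ⟨⟨by omega, by omega⟩, ?_, ?_⟩
      · have e4 : n - (n - p) = p := by omega
        rw [e4]; exact hp
      · have e4 : n + (n - p) = 2 * n - p := by omega
        rw [e4]; exact hq
    · intro p hp p' hp' heq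
      rw [mem_coe, mem_RS] at hp hp'
      have i1 := hp.2.2.1
      have i2 := hp'.2.2.1
      simp only at heq
      omega
  exact_mod_cast h2

/-- the modified indicator -/
noncomputable def ind' (n h : ℕ) : ℝ := by
  classical exact if (n - h).Prime ∧ (n + h).Prime ∧ √(2 * (n : ℝ)) < ((n - h : ℕ) : ℝ) then 1 else 0

noncomputable def r' (H n : ℕ) : ℝ := ∑ h ∈ Ioc 0 H, ind' n h

lemma ind'_nonneg (n h : ℕ) : 0 ≤ ind' n h := by unfold ind'; split_ifs <;> norm_num

lemma ind'_le (n h : ℕ) : ind' n h ≤ ind n h := by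
  unfold ind' ind
  split_ifs with h1 h2 h2
  · exact le_rfl
  · exact absurd ⟨h1.1, h1.2.1⟩ h2
  · norm_num
  · exact le_rfl

lemma r'_nonneg (H n : ℕ) : 0 ≤ r' H n := sum_nonneg fun h _ => ind'_nonneg n h

lemma r'_le (H n : ℕ) : r' H n ≤ rH H n := sum_le_sum fun h _ => ind'_le n h

lemma r'_le_R (H' n : ℕ) (H : ℝ) (hH : (H' : ℝ) ≤ H) : r' H' n ≤ R H n := by
  classical
  rw [R_eq]
  have h1 : r' H' n = (((Ioc 0 H').filter (fun h => (n - h).Prime ∧ (n + h).Prime ∧
      √(2 * (n : ℝ)) < ((n - h : ℕ) : ℝ))).card : ℝ) := by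
    unfold r' ind'
    rw [card_filter]
    push_cast
    rfl
  rw [h1]
  have h2 : ((Ioc 0 H').filter (fun h => (n - h).Prime ∧ (n + h).Prime ∧
      √(2 * (n : ℝ)) < ((n - h : ℕ) : ℝ))).card ≤ (RS H n).card := by
    apply card_le_card_of_injOn (fun h => n - h)
    · intro h hh
      rw [mem_coe, mem_filter, mem_Ioc] at hh
      obtain ⟨⟨h0, hH'⟩, hp, hq, hs⟩ := hh
      have hpos := hp.pos
      show n - h ∈ (RS H n : Set ℕ)
      rw [mem_coe, mem_RS]
      refine ⟨hp, hs, by omega, ?_, ?_⟩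
      · have e1 : ((n - h : ℕ) : ℝ) = (n : ℝ) - h := by rw [Nat.cast_sub (by omega)]
        rw [e1]
        have e2 : (h : ℝ) ≤ H' := by exact_mod_cast hH'
        linarith
      · have e1 : 2 * n - (n - h) = n + h := by omega
        rw [e1]; exact hq
    · intro i hi j hj hij
      rw [mem_coe, mem_filter, mem_Ioc] at hi hj
      have p1 := hi.2.1.pos
      have p2 := hj.2.1.pos
      simp only at hij
      omega
  exact_mod_cast h2

/-- if `r'` is positive then `R ≥ 1` -/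
lemma one_le_R (H' n : ℕ) (H : ℝ) (hH : (H' : ℝ) ≤ H) (h : 0 < r' H' n) : 1 ≤ R H n := by
  have h1 := r'_le_R H' n H hH
  have h2 : (0 : ℝ) < R H n := by linarith
  have h3 : 0 < R H n := by exact_mod_cast h2
  exact h3

lemma card_nearL (N V h Y : ℕ) :
    ((Ioc N (N + V)).filter (fun n => 0 < n - h ∧ n - h ≤ Y)).card ≤ Y := by
  have : ((Ioc N (N + V)).filter (fun n => 0 < n - h ∧ n - h ≤ Y)).card ≤ (Ioc 0 Y).card := by
    apply card_le_card_of_injOn (fun n => n - h)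
    · intro n hn
      rw [mem_coe, mem_filter] at hn
      exact mem_coe.2 (mem_Ioc.2 hn.2)
    · intro i hi j hj hij
      rw [mem_coe, mem_filter] at hi hj
      simp only at hij
      omega
  simpa using this

/-- the loss of the small primes -/
lemma loss (N V H' : ℕ) : ∑ n ∈ Ioc N (N + V), rH H' n
    ≤ ∑ n ∈ Ioc N (N + V), r' H' n + H' * √(2 * ((N : ℝ) + V)) := by
  classical
  have h1 : ∀ n ∈ Ioc N (N + V), ∀ h : ℕ, ind n h ≤ ind' n h +
      (if 0 < n - h ∧ n - h ≤ ⌊√(2 * ((N : ℝ) + V))⌋₊ then 1 else 0) := by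
    intro n hn h
    rw [mem_Ioc] at hn
    unfold ind ind'
    by_cases h2 : (n - h).Prime ∧ (n + h).Prime
    · rw [if_pos h2]
      by_cases h3 : √(2 * (n : ℝ)) < ((n - h : ℕ) : ℝ)
      · rw [if_pos ⟨h2.1, h2.2, h3⟩]
        split_ifs <;> norm_num
      · rw [if_neg (by tauto), if_pos]
        · norm_num
        · refine ⟨h2.1.pos, ?_⟩
          push Not at h3
          apply Nat.le_floor
          refine h3.trans ?_
          apply Real.sqrt_le_sqrt
          have : (n : ℝ) ≤ N + V := by exact_mod_cast hn.2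
          linarith
    · rw [if_neg h2]
      split_ifs <;> norm_num
  calc ∑ n ∈ Ioc N (N + V), rH H' n
      ≤ ∑ n ∈ Ioc N (N + V), (r' H' n + ∑ h ∈ Ioc 0 H',
          (if 0 < n - h ∧ n - h ≤ ⌊√(2 * ((N : ℝ) + V))⌋₊ then (1 : ℝ) else 0)) := by
        refine sum_le_sum fun n hn => ?_
        unfold rH r'
        rw [← sum_add_distrib]
        exact sum_le_sum fun h _ => h1 n hn h
    _ = ∑ n ∈ Ioc N (N + V), r' H' n + ∑ h ∈ Ioc 0 H', ∑ n ∈ Ioc N (N + V),
          (if 0 < n - h ∧ n - h ≤ ⌊√(2 * ((N : ℝ) + V))⌋₊ then (1 : ℝ) else 0) := by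
        rw [sum_add_distrib]
        congr 1
        rw [sum_comm]
    _ ≤ ∑ n ∈ Ioc N (N + V), r' H' n + ∑ h ∈ Ioc 0 H', √(2 * ((N : ℝ) + V)) := by
        gcongr with h _
        rw [← sum_filter, sum_const, nsmul_eq_mul, mul_one]
        have e1 := card_nearL N V h ⌊√(2 * ((N : ℝ) + V))⌋₊
        have e2 : (⌊√(2 * ((N : ℝ) + V))⌋₊ : ℝ) ≤ √(2 * ((N : ℝ) + V)) :=
          Nat.floor_le (Real.sqrt_nonneg _)
        have e3 : ((((Ioc N (N + V)).filter
            (fun n => 0 < n - h ∧ n - h ≤ ⌊√(2 * ((N : ℝ) + V))⌋₊)).card : ℕ) : ℝ)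
            ≤ (⌊√(2 * ((N : ℝ) + V))⌋₊ : ℝ) := by exact_mod_cast e1
        linarith
    _ = _ := by
        rw [sum_const, Nat.card_Ioc, nsmul_eq_mul, Nat.sub_zero]

/-- a Paley-Zygmund inequality -/
lemma paley (s : Finset ℕ) (f : ℕ → ℝ) (μ : ℝ) (hμ : 0 ≤ μ)
    (h1 : s.card * μ ≤ ∑ n ∈ s, f n) :
    (s.card * μ / 2) ^ 2 ≤
      ((s.filter (fun n => 0 < f n ∧ μ / 2 ≤ f n)).card : ℝ) * ∑ n ∈ s, f n ^ 2 := by
  classical
  have h2 : ∑ n ∈ s, f n ≤ ∑ n ∈ s.filter (fun n => 0 < f n ∧ μ / 2 ≤ f n), f n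
      + s.card * (μ / 2) := by
    rw [← sum_filter_add_sum_filter_not s (fun n => 0 < f n ∧ μ / 2 ≤ f n)]
    gcongr
    calc ∑ n ∈ s.filter (fun n => ¬ (0 < f n ∧ μ / 2 ≤ f n)), f n
        ≤ ∑ n ∈ s.filter (fun n => ¬ (0 < f n ∧ μ / 2 ≤ f n)), μ / 2 := by
          refine sum_le_sum fun n hn => ?_
          rw [mem_filter] at hn
          by_contra hcon
          push Not at hcon
          exact hn.2 ⟨by linarith, hcon.le⟩
      _ ≤ ∑ n ∈ s, μ / 2 :=
          sum_le_sum_of_subset_of_nonneg (filter_subset _ _) fun n _ _ => by linarith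
      _ = s.card * (μ / 2) := by rw [sum_const, nsmul_eq_mul]
  have h3 : s.card * μ / 2 ≤ ∑ n ∈ s.filter (fun n => 0 < f n ∧ μ / 2 ≤ f n), f n := by linarith
  calc (s.card * μ / 2) ^ 2
      ≤ (∑ n ∈ s.filter (fun n => 0 < f n ∧ μ / 2 ≤ f n), f n) ^ 2 := by gcongr
    _ ≤ ((s.filter (fun n => 0 < f n ∧ μ / 2 ≤ f n)).card : ℝ) *
        ∑ n ∈ s.filter (fun n => 0 < f n ∧ μ / 2 ≤ f n), f n ^ 2 := sq_sum_le_card_mul_sum_sq
    _ ≤ _ := by
        apply mul_le_mul_of_nonneg_left _ (by positivity)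
        exact sum_le_sum_of_subset_of_nonneg (filter_subset _ _) fun n _ _ => by positivity

/-- size comparisons -/
lemma sizesL (ε B : ℝ) (hε : 0 < ε) : ∃ N₀ : ℕ, ∀ N V : ℕ, N₀ ≤ N → ε * N ≤ V → V ≤ N →
    16 ≤ Real.log N ∧ B ≤ Real.log N ∧ 4 ≤ N ∧ N ≤ V ^ 2 ∧
    √(2 * ((N : ℝ) + V)) ≤ V / (64 * Real.log N ^ 2) := by
  have h1 := (Real.isLittleO_pow_log_id_atTop (n := 4)).bound (c := ε ^ 2 / 16384) (by positivity)
  have h3 := Real.tendsto_log_atTop.eventually_ge_atTop 16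
  have h5 := Real.tendsto_log_atTop.eventually_ge_atTop B
  have h6 := Filter.eventually_ge_atTop (1 / ε ^ 2 + 4)
  have hev : ∀ᶠ N : ℕ in atTop, ‖Real.log (N : ℝ) ^ 4‖ ≤ ε ^ 2 / 16384 * ‖id (N : ℝ)‖ ∧
      16 ≤ Real.log (N : ℝ) ∧ B ≤ Real.log (N : ℝ) ∧ 1 / ε ^ 2 + 4 ≤ (N : ℝ) :=
    tendsto_natCast_atTop_atTop.eventually (h1.and (h3.and (h5.and h6)))
  obtain ⟨N₀, hN₀⟩ := eventually_atTop.1 hev
  refine ⟨N₀, fun N V hN hV hVN => ?_⟩
  obtain ⟨e1, e3, e5, e6⟩ := hN₀ N hN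
  have hN0 : (0 : ℝ) ≤ N := by positivity
  rw [Real.norm_of_nonneg (by positivity), id, Real.norm_of_nonneg hN0] at e1
  have hε2 : 0 < 1 / ε ^ 2 := by positivity
  have hN4 : (4 : ℝ) ≤ N := by linarith
  have hVN' : (V : ℝ) ≤ N := by exact_mod_cast hVN
  have hV0 : 0 ≤ ε * N := by positivity
  have hV2 : ε ^ 2 * (N : ℝ) ^ 2 ≤ (V : ℝ) ^ 2 := by
    calc ε ^ 2 * (N : ℝ) ^ 2 = (ε * N) ^ 2 := by ring
      _ ≤ (V : ℝ) ^ 2 := by gcongr
  have hL : 0 < Real.log N := by linarith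
  refine ⟨e3, e5, by exact_mod_cast hN4, ?_, ?_⟩
  · have h7 : 1 ≤ ε ^ 2 * N := by
      have h8 : 1 / ε ^ 2 ≤ (N : ℝ) := by linarith
      rw [div_le_iff₀ (by positivity)] at h8
      linarith
    have h9 : (N : ℝ) ≤ (V : ℝ) ^ 2 := by
      refine le_trans ?_ hV2
      calc (N : ℝ) = 1 * N := by ring
        _ ≤ (ε ^ 2 * N) * N := by gcongr
        _ = ε ^ 2 * (N : ℝ) ^ 2 := by ring
    exact_mod_cast h9
  · rw [Real.sqrt_le_left (by positivity)]
    rw [div_pow, le_div_iff₀ (by positivity)]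
    calc 2 * ((N : ℝ) + V) * (64 * Real.log N ^ 2) ^ 2
        ≤ 2 * ((N : ℝ) + N) * (64 * Real.log N ^ 2) ^ 2 := by gcongr
      _ = 16384 * N * Real.log N ^ 4 := by ring
      _ ≤ 16384 * (N : ℝ) * (ε ^ 2 / 16384 * N) := by gcongr
      _ = ε ^ 2 * (N : ℝ) ^ 2 := by ring
      _ ≤ (V : ℝ) ^ 2 := hV2


/-- the count of the `n` near which there is a pair -/
lemma card_shape (N V : ℕ) (P : ℕ → Prop) [DecidablePred P] :
    Nat.card {n : ℕ // N < n ∧ n ≤ N + V ∧ P n} = ((Ioc N (N + V)).filter P).card := by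
  apply Nat.subtype_card
  intro n
  rw [mem_filter, mem_Ioc, and_assoc]

/-- the short range -/
lemma short_mem {N V n h : ℕ} {H : ℝ} (hN : 4 ≤ N) (hV : V ≤ N) (hn : n ∈ Ioc N (N + V))
    (h0 : 0 < h) (hH : (h : ℝ) ≤ H) (hp : (n - h).Prime) (hq : (n + h).Prime) (hNn : N < n - h) :
    1 ≤ R H n := by
  rw [R_eq]
  have hnn : n ≤ N + V := (mem_Ioc.1 hn).2
  have hmem : n - h ∈ RS H n := by
    rw [mem_RS]
    refine ⟨hp, ?_, by omega, ?_, ?_⟩
    · have e1 : √(2 * (n : ℝ)) ≤ N := by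
        rw [Real.sqrt_le_left (by positivity)]
        have e2 : 2 * n ≤ N ^ 2 := by nlinarith
        exact_mod_cast e2
      have e3 : (N : ℝ) < ((n - h : ℕ) : ℝ) := by exact_mod_cast hNn
      linarith
    · have e1 : ((n - h : ℕ) : ℝ) = (n : ℝ) - h := by rw [Nat.cast_sub (by omega)]
      rw [e1]; linarith
    · have e1 : 2 * n - (n - h) = n + h := by omega
      rw [e1]; exact hq
  exact card_pos.2 ⟨_, hmem⟩

theorem mainL : ∃ c C δ : ℝ, 0 < c ∧ 0 < C ∧ 0 < δ ∧ ∀ ε : ℝ, 0 < ε → ∃ N₀ : ℕ, ∀ N V : ℕ,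
    N₀ ≤ N → ε * N ≤ V → V ≤ N → ∀ H : ℝ, 1 ≤ H →
    (∑ n ∈ Ioc N (N + V), (R H n : ℝ) ≤ C * (H / Real.log N ^ 2) * V) ∧
    ((Nat.card {n : ℕ // N < n ∧ n ≤ N + V ∧ 1 ≤ R H n} : ℝ) ≤
      C * min 1 (H / Real.log N ^ 2) * V) ∧
    ((1 / 2 - δ) * Real.log N ≤ H → H ≤ V → c * min 1 (H / Real.log N ^ 2) * V ≤
      (Nat.card {n : ℕ // N < n ∧ n ≤ N + V ∧ 1 ≤ R H n ∧
        c * (H / Real.log N ^ 2) ≤ R H n} : ℝ)) := by
  classical
  obtain ⟨C1, hC1, N₁, hf⟩ := first_upperL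
  obtain ⟨C2, hC2, N₂, hs⟩ := second_upperL
  obtain ⟨δ, κ, hδ, hδ2, hκ, hgap⟩ := small_gaps
  set c₀ : ℝ := min (1 / 512) (1 / (256 * (32768 * C2))) with hc₀
  have hc₀0 : 0 < c₀ := lt_min (by norm_num) (by positivity)
  set c : ℝ := min c₀ (κ / 10) with hc
  have hc0 : 0 < c := lt_min hc₀0 (by positivity)
  have hcc : c ≤ c₀ := min_le_left _ _
  have hck : c ≤ κ / 10 := min_le_right _ _
  have hc1 : c ≤ 1 / 512 := hcc.trans (min_le_left _ _)
  have hc2 : c ≤ 1 / (256 * (32768 * C2)) := hcc.trans (min_le_right _ _)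
  refine ⟨c, C1 + 1, δ, hc0, by positivity, hδ, fun ε hε => ?_⟩
  obtain ⟨N₃, hl⟩ := first_lowerL ε hε
  obtain ⟨N₄, hsz⟩ := sizesL ε 16 hε
  obtain ⟨N₅, hg⟩ := hgap ε hε
  refine ⟨max (max (max N₁ N₂) (max N₃ N₄)) N₅, fun N V hN hεV hVN H hH1 => ?_⟩
  have hN' : max (max N₁ N₂) (max N₃ N₄) ≤ N := (le_max_left _ _).trans hN
  have hN5 : N₅ ≤ N := (le_max_right _ _).trans hN
  have hN1 : N₁ ≤ N := (le_max_left _ _).trans ((le_max_left _ _).trans hN')
  have hN2 : N₂ ≤ N := (le_max_right _ _).trans ((le_max_left _ _).trans hN')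
  have hN3 : N₃ ≤ N := (le_max_left _ _).trans ((le_max_right _ _).trans hN')
  have hN4 : N₄ ≤ N := (le_max_right _ _).trans ((le_max_right _ _).trans hN')
  obtain ⟨hL16, -, hN44, hNV2, hsq⟩ := hsz N V hN4 hεV hVN
  set L := Real.log N with hL
  have hL0 : 0 < L := by linarith
  have hN0 : (0 : ℝ) < N := by
    have : (4 : ℝ) ≤ N := by exact_mod_cast hN44
    linarith
  have hV0 : (0 : ℝ) < V := lt_of_lt_of_le (by positivity) hεV
  have hA : ∑ n ∈ Ioc N (N + V), (R H n : ℝ) ≤ (C1 + 1) * (H / L ^ 2) * V := by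
    have hfl : (⌊H⌋₊ : ℝ) ≤ H := Nat.floor_le (by linarith)
    calc ∑ n ∈ Ioc N (N + V), (R H n : ℝ) ≤ ∑ n ∈ Ioc N (N + V), rH ⌊H⌋₊ n :=
          sum_le_sum fun n _ => R_le ⌊H⌋₊ n H (Nat.lt_floor_add_one H)
      _ ≤ C1 * (V * ⌊H⌋₊ / L ^ 2) := hf N V hN1 hVN hNV2 ⌊H⌋₊
      _ ≤ (C1 + 1) * (V * H / L ^ 2) := by
          gcongr
          linarith
      _ = _ := by ring
  refine ⟨hA, ?_, ?_⟩
  · rw [card_shape N V (fun n => 1 ≤ R H n)]
    have h1 : (((Ioc N (N + V)).filter (fun n => 1 ≤ R H n)).card : ℝ) ≤ V := by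
      have := card_filter_le (Ioc N (N + V)) (fun n => 1 ≤ R H n)
      rw [Nat.card_Ioc, Nat.add_sub_cancel_left] at this
      exact_mod_cast this
    have h2 : (((Ioc N (N + V)).filter (fun n => 1 ≤ R H n)).card : ℝ)
        ≤ (C1 + 1) * (H / L ^ 2) * V := by
      refine le_trans ?_ hA
      calc (((Ioc N (N + V)).filter (fun n => 1 ≤ R H n)).card : ℝ)
          = ∑ n ∈ (Ioc N (N + V)).filter (fun n => 1 ≤ R H n), (1 : ℝ) := by simp
        _ ≤ ∑ n ∈ (Ioc N (N + V)).filter (fun n => 1 ≤ R H n), (R H n : ℝ) := by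
            refine sum_le_sum fun n hn => ?_
            rw [mem_filter] at hn
            exact_mod_cast hn.2
        _ ≤ _ := sum_le_sum_of_subset_of_nonneg (filter_subset _ _) fun n _ _ => by positivity
    rcases le_total 1 (H / L ^ 2) with h | h
    · rw [min_eq_left h]
      have : 0 ≤ C1 * V := by positivity
      linarith
    · rw [min_eq_right h]; exact h2
  · intro hHlow hHV
    rw [card_shape N V (fun n => 1 ≤ R H n ∧ c * (H / L ^ 2) ≤ R H n)]
    rcases lt_or_ge H (10 * L) with hH10 | hH10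
    · -- the short range
      have hgc := hg N V hN5 hεV hVN
      rw [← hL] at hgc
      have h1 : c * min 1 (H / L ^ 2) * V ≤ κ * (V / L) := by
        have e1 : min 1 (H / L ^ 2) ≤ 10 / L := by
          refine (min_le_right _ _).trans ?_
          rw [div_le_div_iff₀ (by positivity) hL0]
          calc H * L ≤ 10 * L * L := by gcongr
            _ = 10 * L ^ 2 := by ring
        have e2 : 0 ≤ min 1 (H / L ^ 2) := le_min zero_le_one (by positivity)
        calc c * min 1 (H / L ^ 2) * V ≤ (κ / 10) * (10 / L) * V := by gcongr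
          _ = κ * (V / L) := by ring
      refine h1.trans (hgc.trans ?_)
      have hsub : ((Ioc N (N + V)).filter (fun n => ∃ h : ℕ, 0 < h ∧
          (h : ℝ) ≤ (1 / 2 - δ) * L ∧ (n - h).Prime ∧ (n + h).Prime ∧ N < n - h))
          ⊆ (Ioc N (N + V)).filter (fun n => 1 ≤ R H n ∧ c * (H / L ^ 2) ≤ R H n) := by
        intro n hn
        rw [mem_filter] at hn
        obtain ⟨hn1, h, h0, hh1, hp, hq, hNn⟩ := hn
        have hR := short_mem (H := H) hN44 hVN hn1 h0 (hh1.trans hHlow) hp hq hNn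
        rw [mem_filter]
        refine ⟨hn1, hR, ?_⟩
        have e1 : (1 : ℝ) ≤ R H n := by exact_mod_cast hR
        have e2 : H / L ^ 2 ≤ 1 := by
          rw [div_le_one (by positivity)]
          nlinarith
        have e3 : c * (H / L ^ 2) ≤ 1 * 1 := by
          have : 0 ≤ H / L ^ 2 := by positivity
          gcongr
          linarith
        linarith
      exact_mod_cast card_le_card hsub
    · set H' : ℕ := ⌊H / 2⌋₊ with hH'
      have hH'1 : (H' : ℝ) ≤ H / 2 := Nat.floor_le (by linarith)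
      have hH'2 : H / 2 < H' + 1 := Nat.lt_floor_add_one _
      have hH'H : (H' : ℝ) ≤ H := by linarith
      have hH'4 : 4 * L ≤ H' := by linarith
      have hH'q : H / 4 ≤ H' := by linarith
      have hH'0 : (0 : ℝ) < H' := by linarith
      have h2N : 2 * H' ≤ V := by
        have e1 : (2 * H' : ℝ) ≤ V := by linarith
        exact_mod_cast e1
      have hlow := hl N V hN3 hεV hVN H' hH'4 h2N
      rw [← hL] at hlow
      have hup := hs N V hN2 hVN hNV2 H'
      rw [← hL] at hup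
      have hloss := loss N V H'
      set μ : ℝ := H' / (64 * L ^ 2) with hμ
      have hμ0 : 0 < μ := by positivity
      have hcN : ((Ioc N (N + V)).card : ℝ) = V := by
        rw [Nat.card_Ioc, Nat.add_sub_cancel_left]
      have hfirst : ((Ioc N (N + V)).card : ℝ) * μ ≤ ∑ n ∈ Ioc N (N + V), r' H' n := by
        rw [hcN]
        have e1 : H' * √(2 * ((N : ℝ) + V)) ≤ H' * (V / (64 * L ^ 2)) := by gcongr
        have e2 : V * (H' : ℝ) / (32 * L ^ 2) = V * μ + H' * (V / (64 * L ^ 2)) := by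
          rw [hμ]; field_simp; ring
        linarith
      have hsecond : ∑ n ∈ Ioc N (N + V), r' H' n ^ 2 ≤ C2 * (4096 * V * (μ + μ ^ 2)) := by
        calc ∑ n ∈ Ioc N (N + V), r' H' n ^ 2 ≤ ∑ n ∈ Ioc N (N + V), rH H' n ^ 2 := by
              refine sum_le_sum fun n _ => ?_
              have e1 := r'_nonneg H' n
              have e2 := r'_le H' n
              gcongr
          _ ≤ _ := hup
          _ = C2 * (64 * V * μ + 4096 * V * μ ^ 2) := by
              rw [hμ]; field_simp; ring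
          _ ≤ C2 * (4096 * V * (μ + μ ^ 2)) := by
              have e3 : 64 * V * μ ≤ 4096 * V * μ := by gcongr; norm_num
              have e4 : 64 * V * μ + 4096 * V * μ ^ 2 ≤ 4096 * V * (μ + μ ^ 2) := by linarith
              gcongr
      have hpz := paley (Ioc N (N + V)) (r' H') μ hμ0.le hfirst
      rw [hcN] at hpz
      set b : ℝ := (((Ioc N (N + V)).filter
        (fun n => 0 < r' H' n ∧ μ / 2 ≤ r' H' n)).card : ℝ) with hb
      have hb0 : 0 ≤ b := by positivity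
      have h1 : (V * μ / 2) ^ 2 ≤ b * (C2 * (4096 * V * (μ + μ ^ 2))) :=
        hpz.trans (by gcongr)
      have h2 : V * μ / (16384 * C2 * (1 + μ)) ≤ b := by
        rw [div_le_iff₀ (by positivity)]
        have e1 : (V * μ) * (V * μ) ≤ b * (16384 * C2 * (1 + μ)) * (V * μ) := by
          calc (V * μ) * (V * μ) = 4 * (V * μ / 2) ^ 2 := by ring
            _ ≤ 4 * (b * (C2 * (4096 * V * (μ + μ ^ 2)))) := by gcongr
            _ = b * (16384 * C2 * (1 + μ)) * (V * μ) := by ring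
        exact le_of_mul_le_mul_right e1 (by positivity)
      have h3 : min 1 μ / 2 ≤ μ / (1 + μ) := by
        rw [div_le_div_iff₀ (by norm_num) (by positivity)]
        rcases le_total 1 μ with h | h
        · rw [min_eq_left h]; linarith
        · rw [min_eq_right h]; nlinarith
      have h4 : V * (min 1 μ) / (32768 * C2) ≤ b := by
        refine le_trans ?_ h2
        calc V * (min 1 μ) / (32768 * C2) = V * (min 1 μ / 2) / (16384 * C2) := by
              field_simp; ring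
          _ ≤ V * (μ / (1 + μ)) / (16384 * C2) := by gcongr
          _ = V * μ / (16384 * C2 * (1 + μ)) := by field_simp
      have hμH : H / L ^ 2 / 256 ≤ μ := by
        rw [hμ, div_div, div_le_div_iff₀ (by positivity) (by positivity)]
        have e1 : H ≤ 4 * H' := by linarith
        calc H * (64 * L ^ 2) ≤ (4 * H') * (64 * L ^ 2) := by gcongr
          _ = H' * (L ^ 2 * 256) := by ring
      have hHL0 : 0 ≤ H / L ^ 2 := by positivity
      have h5 : min 1 (H / L ^ 2) / 256 ≤ min 1 μ := by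
        apply le_min
        · have := min_le_left 1 (H / L ^ 2)
          linarith
        · have := min_le_right 1 (H / L ^ 2)
          linarith
      have hmin0 : 0 ≤ min 1 (H / L ^ 2) := le_min zero_le_one hHL0
      have h6 : c * min 1 (H / L ^ 2) * V ≤ b := by
        refine le_trans ?_ h4
        calc c * min 1 (H / L ^ 2) * V
            ≤ 1 / (256 * (32768 * C2)) * min 1 (H / L ^ 2) * V := by gcongr
          _ = V * (min 1 (H / L ^ 2) / 256) / (32768 * C2) := by field_simp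
          _ ≤ V * (min 1 μ) / (32768 * C2) := by gcongr
      refine h6.trans ?_
      rw [hb]
      have hsub : (Ioc N (N + V)).filter (fun n => 0 < r' H' n ∧ μ / 2 ≤ r' H' n)
          ⊆ (Ioc N (N + V)).filter (fun n => 1 ≤ R H n ∧ c * (H / L ^ 2) ≤ R H n) := by
        intro n hn
        rw [mem_filter] at hn
        rw [mem_filter]
        refine ⟨hn.1, one_le_R H' n H hH'H hn.2.1, ?_⟩
        have e1 := r'_le_R H' n H hH'H
        have e2 : c * (H / L ^ 2) ≤ μ / 2 := by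
          calc c * (H / L ^ 2) ≤ 1 / 512 * (H / L ^ 2) := by gcongr
            _ ≤ μ / 2 := by linarith
        linarith [hn.2.2]
      exact_mod_cast card_le_card hsub

end Pool.Agent.UW94
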