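import Pool.Agent.UW94.CntL

set_option autoImplicit false

namespace Pool.Agent.UW94

open Finset Pool.Agent.E456 Pool.Agent.Gold42

lemma mom_sum_ind_mul (N V h h' : ℕ) :
    ∑ n ∈ Ioc N (N + V), ind n h * ind n h' = ((QL N V h h').card : ℝ) := by
  unfold QL ind
  rw [card_filter]
  push_cast
  refine sum_congr rfl fun n _ => ?_
  by_cases h1 : (n - h).Prime <;> by_cases h2 : (n + h).Prime <;>
    by_cases h3 : (n - h').Prime <;> by_cases h4 : (n + h').Prime <;> simp [h1, h2, h3, h4]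

lemma mom_sum_ind (N V h : ℕ) : ∑ n ∈ Ioc N (N + V), ind n h = ((QL N V h h).card : ℝ) := by
  rw [← mom_sum_ind_mul]
  refine sum_congr rfl fun n _ => ?_
  unfold ind; split_ifs <;> norm_num

lemma mom_QL_symm (N V h h' : ℕ) : QL N V h h' = QL N V h' h := by
  ext n
  unfold QL
  rw [mem_filter, mem_filter]
  tauto

/-- copy of `first_upper` (Gold42/Moments.lean) -/
theorem first_upperL : ∃ C : ℝ, 0 < C ∧ ∃ N₀ : ℕ, ∀ N V : ℕ, N₀ ≤ N → V ≤ N → N ≤ V ^ 2 → ∀ H : ℕ,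
    ∑ n ∈ Ioc N (N + V), rH H n ≤ C * (V * H / Real.log N ^ 2) := by
  obtain ⟨C, hC, N₀, hc⟩ := cnt2L
  refine ⟨C * Real.exp (2 * (2 * Real.exp 2)), by positivity, N₀, fun N V hN hV hNV H => ?_⟩
  unfold rH
  rw [sum_comm]
  calc ∑ h ∈ Ioc 0 H, ∑ n ∈ Ioc N (N + V), ind n h
      = ∑ h ∈ Ioc 0 H, ((QL N V h h).card : ℝ) := sum_congr rfl fun h _ => mom_sum_ind N V h
    _ ≤ ∑ h ∈ Ioc 0 H, C * (V / Real.log N ^ 2) * Real.exp (2 * hh h) := by
        refine sum_le_sum fun h hh1 => ?_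
        rw [mem_Ioc] at hh1
        exact hc N V hN hV hNV h hh1.1
    _ = C * (V / Real.log N ^ 2) * ∑ h ∈ Ioc 0 H, Real.exp (2 * hh h) := by rw [mul_sum]
    _ ≤ C * (V / Real.log N ^ 2) * (H * Real.exp (2 * (2 * Real.exp 2))) := by
        gcongr
        exact sum_exp_hh 2 (by norm_num) H
    _ = _ := by ring

/-- copy of `second_upper` (Gold42/Moments.lean), with `sing_sum` -/
theorem second_upperL : ∃ C : ℝ, 0 < C ∧ ∃ N₀ : ℕ, ∀ N V : ℕ, N₀ ≤ N → V ≤ N → N ≤ V ^ 2 → ∀ H : ℕ,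
    ∑ n ∈ Ioc N (N + V), rH H n ^ 2
      ≤ C * (V * H / Real.log N ^ 2 + V * H ^ 2 / Real.log N ^ 4) := by
  obtain ⟨C1, hC1, N₁, hf⟩ := first_upperL
  obtain ⟨C4, hC4, N₄, hc⟩ := cnt4L
  obtain ⟨Cs, hCs, hsing⟩ := sing_sum
  refine ⟨C1 + 2 * (C4 * Cs), by positivity, max N₁ N₄, fun N V hN hV hNV H => ?_⟩
  have hN1 : N₁ ≤ N := (le_max_left _ _).trans hN
  have hN4 : N₄ ≤ N := (le_max_right _ _).trans hN
  have e1 : ∑ n ∈ Ioc N (N + V), rH H n ^ 2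
      = ∑ h ∈ Ioc 0 H, ∑ h' ∈ Ioc 0 H, ((QL N V h h').card : ℝ) := by
    calc ∑ n ∈ Ioc N (N + V), rH H n ^ 2
        = ∑ n ∈ Ioc N (N + V), ∑ h ∈ Ioc 0 H, ∑ h' ∈ Ioc 0 H, ind n h * ind n h' := by
          refine sum_congr rfl fun n _ => ?_
          unfold rH
          rw [pow_two, sum_mul_sum]
      _ = ∑ h ∈ Ioc 0 H, ∑ h' ∈ Ioc 0 H, ∑ n ∈ Ioc N (N + V), ind n h * ind n h' := by
          rw [sum_comm]
          refine sum_congr rfl fun h _ => ?_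
          rw [sum_comm]
      _ = _ := sum_congr rfl fun h _ => sum_congr rfl fun h' _ => mom_sum_ind_mul N V h h'
  have hsplit : ∑ h ∈ Ioc 0 H, ∑ h' ∈ Ioc 0 H, ((QL N V h h').card : ℝ)
      = ∑ h ∈ Ioc 0 H, ((QL N V h h).card : ℝ)
        + (∑ h ∈ Ioc 0 H, ∑ h' ∈ (Ioc 0 H).filter (fun h' => h' < h), ((QL N V h h').card : ℝ)
        + ∑ h ∈ Ioc 0 H, ∑ h' ∈ (Ioc 0 H).filter (fun h' => h < h'), ((QL N V h h').card : ℝ)) := by
    rw [← sum_add_distrib, ← sum_add_distrib]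
    refine sum_congr rfl fun h hh1 => ?_
    have h1 : ((QL N V h h).card : ℝ) =
        ∑ h' ∈ Ioc 0 H, (if h' = h then ((QL N V h h').card : ℝ) else 0) := by
      rw [sum_ite_eq' (Ioc 0 H) h, if_pos hh1]
    rw [h1, sum_filter, sum_filter, ← sum_add_distrib, ← sum_add_distrib]
    refine sum_congr rfl fun h' _ => ?_
    rcases lt_trichotomy h' h with hlt | heq | hgt
    · rw [if_neg hlt.ne, if_pos hlt, if_neg (by omega)]; ring
    · rw [if_pos heq, if_neg (by omega), if_neg (by omega)]; ring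
    · rw [if_neg hgt.ne', if_neg (by omega), if_pos hgt]; ring
  have hswap : ∑ h ∈ Ioc 0 H, ∑ h' ∈ (Ioc 0 H).filter (fun h' => h < h'), ((QL N V h h').card : ℝ)
      = ∑ h ∈ Ioc 0 H, ∑ h' ∈ (Ioc 0 H).filter (fun h' => h' < h), ((QL N V h h').card : ℝ) := by
    simp only [sum_filter]
    rw [sum_comm]
    refine sum_congr rfl fun h _ => sum_congr rfl fun h' _ => ?_
    rw [mom_QL_symm N V h' h]
  have hlow : ∑ h ∈ Ioc 0 H, ∑ h' ∈ (Ioc 0 H).filter (fun h' => h' < h), ((QL N V h h').card : ℝ)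
      ≤ C4 * (V / Real.log N ^ 4) * (Cs * (H : ℝ) ^ 2) := by
    calc ∑ h ∈ Ioc 0 H, ∑ h' ∈ (Ioc 0 H).filter (fun h' => h' < h), ((QL N V h h').card : ℝ)
        ≤ ∑ h ∈ Ioc 0 H, ∑ h' ∈ (Ioc 0 H).filter (fun h' => h' < h),
          C4 * (V / Real.log N ^ 4) *
            Real.exp (4 * (hh h + hh h' + (hh (h - h') + hh (h + h')))) := by
          refine sum_le_sum fun h hh1 => sum_le_sum fun h' hh2 => ?_
          rw [mem_Ioc] at hh1
          rw [mem_filter, mem_Ioc] at hh2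
          exact hc N V hN4 hV hNV h' h hh2.1.1 hh2.2
      _ = C4 * (V / Real.log N ^ 4) * ∑ h ∈ Ioc 0 H, ∑ h' ∈ (Ioc 0 H).filter (fun h' => h' < h),
            Real.exp (4 * (hh h + hh h' + (hh (h - h') + hh (h + h')))) := by
          rw [mul_sum]
          refine sum_congr rfl fun h _ => ?_
          rw [mul_sum]
      _ ≤ _ := by
          gcongr
          exact hsing H
  have hdiag : ∑ h ∈ Ioc 0 H, ((QL N V h h).card : ℝ) ≤ C1 * (V * H / Real.log N ^ 2) := by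
    have := hf N V hN1 hV hNV H
    unfold rH at this
    rw [sum_comm] at this
    simpa only [mom_sum_ind] using this
  rw [e1, hsplit, hswap]
  have p1 : 0 ≤ (V : ℝ) * H / Real.log N ^ 2 := by positivity
  have p2 : 0 ≤ (V : ℝ) * H ^ 2 / Real.log N ^ 4 := by positivity
  calc ∑ h ∈ Ioc 0 H, ((QL N V h h).card : ℝ)
        + (∑ h ∈ Ioc 0 H, ∑ h' ∈ (Ioc 0 H).filter (fun h' => h' < h), ((QL N V h h').card : ℝ)
        + ∑ h ∈ Ioc 0 H, ∑ h' ∈ (Ioc 0 H).filter (fun h' => h' < h), ((QL N V h h').card : ℝ))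
      ≤ C1 * (V * H / Real.log N ^ 2) + (C4 * (V / Real.log N ^ 4) * (Cs * (H : ℝ) ^ 2)
        + C4 * (V / Real.log N ^ 4) * (Cs * (H : ℝ) ^ 2)) := by gcongr
    _ = C1 * (V * H / Real.log N ^ 2) + 2 * (C4 * Cs) * (V * H ^ 2 / Real.log N ^ 4) := by ring
    _ ≤ (C1 + 2 * (C4 * Cs)) * (V * H / Real.log N ^ 2)
        + (C1 + 2 * (C4 * Cs)) * (V * H ^ 2 / Real.log N ^ 4) := by
        gcongr
        · linarith [mul_pos hC4 hCs]
        · linarith
    _ = _ := by ring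

end Pool.Agent.UW94
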