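import Pool.Agent.UW94.Defs
import Pool.Agent.PNT.Main

set_option autoImplicit false

namespace Pool.Agent.UW94

open Finset Pool.Agent.E456 Pool.Agent.Gold42

/-- From `Pool.Agent.PNT.theta_asymp`: `θ (N + V) - θ N ≥ V - η (2 N + V)`, and
`θ (N + V) - θ N ≤ card * log (2 N)`. -/
theorem primes_loc (ε δ : ℝ) (hε : 0 < ε) (hδ : 0 < δ) : ∃ N₀ : ℕ, ∀ N V : ℕ, N₀ ≤ N →
    ε * N ≤ V → V ≤ N → (1 - δ) * (V / Real.log N) ≤ ((PL N V).card : ℝ) := by
  classical
  -- choose η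
  set η : ℝ := ε * δ / 8 with hη
  have hη0 : 0 < η := by positivity
  have hθ := Pool.Agent.PNT.theta_asymp
  rw [Metric.tendsto_atTop] at hθ
  obtain ⟨X, hX⟩ := hθ η hη0
  -- log 2 / log N small
  have hlog : Filter.Tendsto (fun n : ℕ => Real.log (n : ℝ)) Filter.atTop Filter.atTop :=
    Real.tendsto_log_atTop.comp tendsto_natCast_atTop_atTop
  obtain ⟨N₁, hN₁⟩ := (hlog.eventually_ge_atTop (2 * Real.log 2 / δ)).exists_forall_of_atTop
  refine ⟨max (max N₁ (⌈X⌉₊ + 1)) 3, ?_⟩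
  intro N V hN hV1 hV2
  have hNN₁ : N₁ ≤ N := le_trans (le_trans (le_max_left _ _) (le_max_left _ _)) hN
  have hNX : X ≤ (N : ℝ) := by
    have h1 : ⌈X⌉₊ + 1 ≤ N := le_trans (le_trans (le_max_right _ _) (le_max_left _ _)) hN
    have h2 : (⌈X⌉₊ : ℝ) + 1 ≤ N := by exact_mod_cast h1
    linarith [Nat.le_ceil X]
  have hN3 : 3 ≤ N := le_trans (le_max_right _ _) hN
  have hNpos : (0 : ℝ) < N := by
    have : (3 : ℝ) ≤ N := by exact_mod_cast hN3
    linarith
  have hVpos : (0 : ℝ) < V := lt_of_lt_of_le (by positivity) hV1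
  have hVN : (V : ℝ) ≤ N := by exact_mod_cast hV2
  have hlogN := hN₁ N hNN₁
  have hL0 : 0 < Real.log N := Real.log_pos (by
    have : (3 : ℝ) ≤ N := by exact_mod_cast hN3
    linarith)
  have hlog2 : 0 < Real.log 2 := Real.log_pos (by norm_num)
  -- theta bounds
  have b1 := hX N hNX
  have b2 := hX ((N + V : ℕ) : ℝ) (by push_cast; linarith)
  rw [Real.dist_eq, abs_lt] at b1 b2
  have t1 : Chebyshev.theta N ≤ (1 + η) * N := by
    have h1 : Chebyshev.theta (N : ℝ) / N ≤ 1 + η := by linarith [b1.2]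
    rwa [div_le_iff₀ hNpos] at h1
  have hNVpos : (0 : ℝ) < ((N + V : ℕ) : ℝ) := by push_cast; linarith
  have t2 : (1 - η) * ((N + V : ℕ) : ℝ) ≤ Chebyshev.theta ((N + V : ℕ) : ℝ) := by
    have h1 : 1 - η ≤ Chebyshev.theta ((N + V : ℕ) : ℝ) / ((N + V : ℕ) : ℝ) := by
      linarith [b2.1]
    rwa [le_div_iff₀ hNVpos] at h1
  -- the difference
  have hdiff : Chebyshev.theta ((N + V : ℕ) : ℝ) - Chebyshev.theta (N : ℝ) =
      ∑ p ∈ PL N V, Real.log p := by
    unfold Chebyshev.theta PL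
    rw [Nat.floor_natCast, Nat.floor_natCast]
    have hsub : (Ioc 0 N).filter Nat.Prime ⊆ (Ioc 0 (N + V)).filter Nat.Prime := by
      apply Finset.filter_subset_filter
      exact Finset.Ioc_subset_Ioc_right (by omega)
    rw [← Finset.sum_sdiff hsub, add_sub_cancel_right]
    apply Finset.sum_congr _ (fun _ _ => rfl)
    ext p
    simp only [Finset.mem_sdiff, Finset.mem_filter, Finset.mem_Ioc]
    constructor
    · rintro ⟨⟨⟨h1, h2⟩, h3⟩, h4⟩
      refine ⟨⟨?_, h2⟩, h3⟩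
      by_contra h5
      exact h4 ⟨⟨h1, by omega⟩, h3⟩
    · rintro ⟨⟨h1, h2⟩, h3⟩
      exact ⟨⟨⟨by omega, h2⟩, h3⟩, fun h4 => by omega⟩
  have hsum : ∑ p ∈ PL N V, Real.log p ≤ ((PL N V).card : ℝ) * (Real.log N + Real.log 2) := by
    rw [← nsmul_eq_mul]
    apply Finset.sum_le_card_nsmul
    intro p hp
    unfold PL at hp
    rw [Finset.mem_filter, Finset.mem_Ioc] at hp
    rw [← Real.log_mul hNpos.ne' (by norm_num)]
    apply Real.log_le_log
    · have : 0 < p := hp.2.pos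
      exact_mod_cast this
    · have h1 : (p : ℝ) ≤ (N + V : ℕ) := by exact_mod_cast hp.1.2
      push_cast at h1
      linarith
  -- conclusion
  set c : ℝ := ((PL N V).card : ℝ) with hc
  have hc0 : 0 ≤ c := Nat.cast_nonneg _
  have e1 : (V : ℝ) - η * (2 * N + V) ≤ c * (Real.log N + Real.log 2) := by
    have : ((N + V : ℕ) : ℝ) = N + V := by push_cast; ring
    rw [this] at t2
    rw [this] at hdiff
    nlinarith [t1, t2, hdiff, hsum]
  have e2 : η * (2 * N + V) ≤ δ / 2 * V := by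
    have h1 : ε * (N : ℝ) * δ ≤ V * δ := mul_le_mul_of_nonneg_right hV1 hδ.le
    rw [hη]
    nlinarith [mul_le_mul_of_nonneg_left hVN (mul_pos hε hδ).le]
  have e3 : Real.log 2 ≤ δ / 2 * Real.log N := by
    rw [div_le_iff₀ hδ] at hlogN
    linarith
  have e4 : (1 - δ / 2) * V ≤ c * ((1 + δ / 2) * Real.log N) := by
    have h1 : c * (Real.log N + Real.log 2) ≤ c * ((1 + δ / 2) * Real.log N) :=
      mul_le_mul_of_nonneg_left (by linarith) hc0
    linarith
  have e5 : (1 - δ) * V ≤ c * Real.log N := by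
    by_contra hcon
    rw [not_le] at hcon
    have h2 : (1 + δ / 2) * (c * Real.log N) < (1 + δ / 2) * ((1 - δ) * V) :=
      mul_lt_mul_of_pos_left hcon (by positivity)
    nlinarith [mul_pos hδ hVpos, mul_pos (mul_pos hδ hδ) hVpos]
  rw [mul_div_assoc', div_le_iff₀ hL0]
  exact e5

end Pool.Agent.UW94
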