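import Pool.Agent.UW94.Defs

set_option autoImplicit false

namespace Pool.Agent.UW94

open Finset Pool.Agent.E456 Pool.Agent.Gold42

/-- the sum of a periodic function over a period does not depend on the starting point -/
private lemma sum_shift (f : ℕ → ℝ) (l : ℕ) (hf : ∀ n, f (n + l) = f n) (a : ℕ) :
    ∑ n ∈ range l, f (n + a) = ∑ n ∈ range l, f n := by
  induction a with
  | zero => rfl
  | succ a ih =>
    rw [← ih]
    have h1 := sum_range_succ (fun n => f (n + a)) l
    have h2 := sum_range_succ' (fun n => f (n + a)) l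
    have h3 : f (l + a) = f (0 + a) := by
      rw [add_comm l a, hf, zero_add]
    have h4 : ∑ n ∈ range l, f (n + (a + 1)) = ∑ n ∈ range l, f (n + 1 + a) := by
      refine sum_congr rfl fun n _ => ?_
      rw [show n + (a + 1) = n + 1 + a by ring]
    rw [h4]
    linarith

private lemma xbar_shift (h h' a l : ℕ) :
    xbar (fun l n => x4 h h' l (n + a)) 1 l = xbar (x4 h h') 1 l := by
  unfold xbar
  split_ifs
  · rfl
  · rw [sum_shift (fun n => x4 h h' l n) l (fun n => x4_per h h' l n) a]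

/-- Translate `sieve4` (Gold42/Sieve.lean): `Q = 1`, `M = (V + 1) / 2`, weights
`x l n = x4 h h' l (n + (N - M))`, periodic again, and `xbar` is unchanged because the sum of a
periodic function over a full period does not depend on the starting point. -/
theorem sieve_loc : ∃ K : ℝ, 0 < K ∧ ∀ J N V h h' : ℕ, 2 * Y8 J ^ 12 ≤ V → V ≤ N →
    ∑ n ∈ Ioc N (N + V), ∏ l ∈ pr 8 J, (1 - x4 h h' l n) ≤
      K * V * Real.exp (-∑ p ∈ pr 8 J, xbar (x4 h h') 1 p) := by
  obtain ⟨K, hK, hs⟩ := sieve4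
  refine ⟨K, hK, fun J N V h h' hJ hVN => ?_⟩
  have hY8 := Y8_ge J
  have hY12 : 1 ≤ Y8 J ^ 12 := Nat.one_le_pow _ _ (by omega)
  set M : ℕ := (V + 1) / 2 with hM
  have hMV : M ≤ V := by omega
  have hVM : V ≤ 2 * M := by omega
  have hYM : Y8 J ^ 12 ≤ M := by omega
  have hMN : M ≤ N := by omega
  set a : ℕ := N - M with ha
  have h1 := hs J 1 0 M one_pos (by omega) hYM (fun l n => x4 h h' l (n + a))
    (fun l n => x4_bounds h h' l (n + a))
    (fun l n => by
      show x4 h h' l (n + l + a) = x4 h h' l (n + a)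
      rw [show n + l + a = (n + a) + l by ring]
      exact x4_per h h' l (n + a))
    (fun l hl hd => absurd (Nat.dvd_one.1 hd) hl.one_lt.ne')
    (fun l => by rw [xbar_shift]; exact xbar4_le h h' l)
  have h2 : ∑ p ∈ pr 8 J, xbar (fun l n => x4 h h' l (n + a)) 1 p
      = ∑ p ∈ pr 8 J, xbar (x4 h h') 1 p := sum_congr rfl fun p _ => xbar_shift h h' a p
  rw [h2] at h1
  have hnn : ∀ n, 0 ≤ ∏ l ∈ pr 8 J, (1 - x4 h h' l n) := fun n =>
    prod_nonneg fun l _ => by linarith [(x4_bounds h h' l n).2]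
  have h3 : ∑ n ∈ Ioc N (N + V), ∏ l ∈ pr 8 J, (1 - x4 h h' l n)
      = ∑ n ∈ Ioc M (M + V), ∏ l ∈ pr 8 J, (1 - x4 h h' l (n + a)) := by
    have e1 : (Ioc M (M + V)).map (addRightEmbedding a) = Ioc N (N + V) := by
      rw [map_add_right_Ioc]
      congr 1 <;> omega
    rw [← e1, sum_map]
    rfl
  rw [h3]
  calc ∑ n ∈ Ioc M (M + V), ∏ l ∈ pr 8 J, (1 - x4 h h' l (n + a))
      ≤ ∑ n ∈ (Ioc M (3 * M)).filter (fun n => n ≡ 0 [MOD 1]),
          ∏ l ∈ pr 8 J, (1 - x4 h h' l (n + a)) := by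
        apply sum_le_sum_of_subset_of_nonneg
        · intro n hn
          rw [mem_Ioc] at hn
          rw [mem_filter, mem_Ioc]
          exact ⟨⟨hn.1, by omega⟩, Nat.modEq_one⟩
        · intro n _ _
          exact hnn (n + a)
    _ ≤ K * (M / (1 : ℕ)) * Real.exp (-∑ p ∈ pr 8 J, xbar (x4 h h') 1 p) := h1
    _ ≤ K * V * Real.exp (-∑ p ∈ pr 8 J, xbar (x4 h h') 1 p) := by
        have e1 : (M : ℝ) ≤ V := by exact_mod_cast hMV
        rw [Nat.cast_one, div_one]
        gcongr

end Pool.Agent.UW94
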